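import Pool.Agent.W948.Geo.Space
import Pool.Agent.H671R2.PolyAuto
import Pool.Agent.H601R2.PP
import Pool.Agent.NPC.Dec

/-!
# The adjacency matrix of the geodetic graph of a graph, computed in polynomial time
-/

namespace Pool.Agent.NPC.GeoC

open Pool.Agent.NPC Pool.Agent.NPC.R671 Pool.Agent.W948.Geo

/-- Codes of points. -/
abbrev Pc : Type := ℕ × ℕ × ℕ

/-- Codes of vertices. -/
abbrev Vc : Type := Pc ⊕ ((Pc × ℕ) ⊕ (Pc × Pc))

/-- The entry of a matrix. -/
def entry (M : List (List Bool)) (u v : ℕ) : Bool := (M.getD u []).getD v false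

/-- The codes of the edges. -/
def edgePts (M : List (List Bool)) : List Pc :=
  (List.range M.length).flatMap fun u => ((List.range M.length).filter
    (fun v => decide (u < v) && entry M u v)).map (fun v => (1, u, v))

/-- The codes of all points. -/
def pts (M : List (List Bool)) : List Pc :=
  (List.range M.length).flatMap (fun u => [(0, u, 0), (0, u, 1), (0, u, 2)]) ++ (edgePts M ++
    [(2, 0, 0), (2, 1, 0), (2, 2, 0)])

/-- Incidence of codes. -/
def incB (p : Pc) (v : ℕ) : Bool :=
  (decide (p.1 = 0) && decide (p.2.1 = v)) ||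
    (decide (p.1 = 1) && (decide (p.2.1 = v) || decide (p.2.2 = v)))

/-- The codes of the flags of the big lines. -/
def bigF (M : List (List Bool)) : List (Pc × ℕ) :=
  (pts M).flatMap fun p => ((List.range M.length).filter (fun v => incB p v)).map
    (fun v => (p, v))

/-- The codes of the other flags. -/
def smallF (M : List (List Bool)) : List (Pc × Pc) :=
  (pts M).flatMap fun p => ((pts M).filter (fun q => !(decide (p = q)) &&
    !((List.range M.length).any (fun v => incB p v && incB q v)))).map (fun q => (p, q))

/-- The codes of all vertices. -/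
def vs (M : List (List Bool)) : List Vc :=
  (pts M).map Sum.inl ++ ((bigF M).map (fun x => Sum.inr (Sum.inl x)) ++
    (smallF M).map (fun x => Sum.inr (Sum.inr x)))

/-- Adjacency of a point and a vertex. -/
def adP (p : Pc) (y : Vc) : Bool :=
  Sum.elim (fun _ => false) (Sum.elim (fun g : Pc × ℕ => decide (g.1 = p))
    (fun g : Pc × Pc => decide (g.1 = p))) y

/-- Adjacency of a flag of a big line and a vertex. -/
def adB (f : Pc × ℕ) (y : Vc) : Bool :=
  Sum.elim (fun p => decide (f.1 = p)) (Sum.elim (fun g : Pc × ℕ => decide (f.2 = g.2) &&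
    !(decide (f.1 = g.1))) (fun _ => false)) y

/-- Adjacency of another flag and a vertex. -/
def adS (f : Pc × Pc) (y : Vc) : Bool :=
  Sum.elim (fun p => decide (f.1 = p)) (Sum.elim (fun _ => false)
    (fun g : Pc × Pc => (decide (f.1 = g.2) && decide (f.2 = g.1)) && !(decide (f.1 = g.1)))) y

/-- Adjacency of codes. -/
def ad (x y : Vc) : Bool :=
  Sum.elim (fun p => adP p y) (Sum.elim (fun f : Pc × ℕ => adB f y)
    (fun f : Pc × Pc => adS f y)) x

theorem ad_symm (x y : Vc) : ad x y = ad y x := by
  rcases x with p | f | f <;> rcases y with q | g | g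
  · rfl
  · rfl
  · rfl
  · rfl
  · simp only [ad, adB, Sum.elim_inl, Sum.elim_inr]
    rw [decide_eq_decide.2 (eq_comm (a := f.2)), decide_eq_decide.2 (eq_comm (a := f.1))]
  · rfl
  · rfl
  · rfl
  · simp only [ad, adS, Sum.elim_inr]
    rw [decide_eq_decide.2 (eq_comm (a := f.1) (b := g.1)),
      decide_eq_decide.2 (eq_comm (a := f.1) (b := g.2)),
      decide_eq_decide.2 (eq_comm (a := f.2) (b := g.1)), Bool.and_comm (decide (g.2 = f.1))]

theorem ad_self (x : Vc) : ad x x = false := by
  rcases x with p | f | f
  · rfl
  · simp [ad, adB]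
  · simp [ad, adS]

/-- The graph on `Fin N` computed from the matrix. -/
def outGraph (M : List (List Bool)) : SimpleGraph (Fin (vs M).length) :=
  listGraph (vs M) ad ad_symm ad_self

/-- The matrix that is computed. -/
def outMat (M : List (List Bool)) : List (List Bool) :=
  (vs M).map (fun u => (vs M).map (fun w => ad u w))

theorem adjMatrix_outGraph (M : List (List Bool)) : adjMatrix (outGraph M) = outMat M :=
  adjMatrix_listGraph _ _ _ _

/-! ### Polynomial time -/

section

variable {α : Type} [TEnc α]

@[fun_prop]
theorem poly_entry {M : α → List (List Bool)} {u v : α → ℕ} (hM : Poly M) (hu : Poly u)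
    (hv : Poly v) : Poly (fun a => entry (M a) (u a) (v a)) := by
  unfold entry
  fun_prop

@[fun_prop]
theorem poly_rangeLen {β : Type} [TEnc β] {l : α → List β} (hl : Poly l) :
    Poly (fun a => List.range (l a).length) := Poly.range_length hl

@[fun_prop]
theorem poly_edgePts {M : α → List (List Bool)} (hM : Poly M) : Poly (fun a => edgePts (M a)) := by
  unfold edgePts
  fun_prop

@[fun_prop]
theorem poly_pts {M : α → List (List Bool)} (hM : Poly M) : Poly (fun a => pts (M a)) := by
  unfold pts
  fun_prop

@[fun_prop]
theorem poly_incB {p : α → Pc} {v : α → ℕ} (hp : Poly p) (hv : Poly v) :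
    Poly (fun a => incB (p a) (v a)) := by
  unfold incB
  fun_prop

@[fun_prop]
theorem poly_bigF {M : α → List (List Bool)} (hM : Poly M) : Poly (fun a => bigF (M a)) := by
  unfold bigF
  fun_prop

@[fun_prop]
theorem poly_smallF {M : α → List (List Bool)} (hM : Poly M) : Poly (fun a => smallF (M a)) := by
  unfold smallF
  fun_prop

@[fun_prop]
theorem poly_vs {M : α → List (List Bool)} (hM : Poly M) : Poly (fun a => vs (M a)) := by
  unfold vs
  fun_prop

@[fun_prop]
theorem poly_ad {x y : α → Vc} (hx : Poly x) (hy : Poly y) : Poly (fun a => ad (x a) (y a)) := by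
  unfold ad adP adB adS
  fun_prop

@[fun_prop]
theorem poly_outMat {M : α → List (List Bool)} (hM : Poly M) : Poly (fun a => outMat (M a)) := by
  unfold outMat
  fun_prop

end

end Pool.Agent.NPC.GeoC
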