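import Mathlib

/-!
# Geodetic graphs: definition and a criterion
-/

namespace Pool.Agent.W948.Geo

open SimpleGraph

/-- A graph is geodetic if it is connected and any two vertices are joined by exactly one shortest
path. -/
def Geodetic {V : Type*} (G : SimpleGraph V) : Prop :=
  G.Connected ∧ ∀ u v : V, ∃! p : G.Walk u v, p.IsPath ∧ p.length = G.dist u v

/-- A graph is 2-connected if it has at least three vertices and stays connected after the removal
of any vertex. -/
def TwoConnected {V : Type*} (G : SimpleGraph V) : Prop :=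
  3 ≤ Nat.card V ∧ ∀ v : V, (G.induce {w | w ≠ v}).Connected

/-- A function which behaves like the distance in a geodetic graph. -/
structure GeoFun {V : Type*} (G : SimpleGraph V) (d : V → V → ℕ) : Prop where
  zero : ∀ x y, d x y = 0 ↔ x = y
  le : ∀ x y z, G.Adj x z → d x y ≤ d z y + 1
  ex : ∀ x y, x ≠ y → ∃ z, G.Adj x z ∧ d z y + 1 = d x y
  uni : ∀ x y z z', G.Adj x z → G.Adj x z' → d z y + 1 = d x y → d z' y + 1 = d x y → z = z'

namespace GeoFun

variable {V : Type*} {G : SimpleGraph V} {d : V → V → ℕ}

theorem le_length (h : GeoFun G d) {x y : V} (p : G.Walk x y) : d x y ≤ p.length := by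
  induction p with
  | nil => exact ((h.zero _ _).2 rfl).le
  | @cons u v w hadj p ih =>
    have := h.le u w v hadj
    simp only [Walk.length_cons]
    omega

theorem exists_walk (h : GeoFun G d) : ∀ (n : ℕ) (x y : V), d x y = n →
    ∃ p : G.Walk x y, p.length = n := by
  intro n
  induction n with
  | zero =>
    intro x y hxy
    obtain rfl := (h.zero x y).1 hxy
    exact ⟨Walk.nil, rfl⟩
  | succ n ih =>
    intro x y hxy
    have hne : x ≠ y := by
      intro he
      have := (h.zero x y).2 he
      omega
    obtain ⟨z, hz, hz'⟩ := h.ex x y hne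
    obtain ⟨p, hp⟩ := ih z y (by omega)
    exact ⟨Walk.cons hz p, by simp [hp]⟩

theorem connected [Nonempty V] (h : GeoFun G d) : G.Connected := by
  rw [connected_iff_exists_forall_reachable]
  obtain ⟨v⟩ := ‹Nonempty V›
  exact ⟨v, fun w => ⟨(h.exists_walk _ v w rfl).choose⟩⟩

theorem dist_eq (h : GeoFun G d) (x y : V) : G.dist x y = d x y := by
  obtain ⟨p, hp⟩ := h.exists_walk _ x y rfl
  apply le_antisymm
  · rw [← hp]; exact dist_le p
  · have : G.Reachable x y := ⟨p⟩
    obtain ⟨q, hq⟩ := this.exists_walk_length_eq_dist
    rw [← hq]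
    exact h.le_length q

theorem unique_walk (h : GeoFun G d) : ∀ (n : ℕ) (x y : V) (p q : G.Walk x y), d x y = n →
    p.length = n → q.length = n → p = q := by
  intro n
  induction n with
  | zero =>
    intro x y p q _ hp hq
    cases p with
    | nil =>
      cases q with
      | nil => rfl
      | cons _ _ => simp at hq
    | cons _ _ => simp at hp
  | succ n ih =>
    intro x y p q hxy hp hq
    cases p with
    | nil => simp at hp
    | @cons _ z _ hz p =>
      cases q with
      | nil => simp at hq
      | @cons _ z' _ hz' q =>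
        simp only [Walk.length_cons, Nat.add_right_cancel_iff] at hp hq
        have h1 := h.le _ y _ hz
        have h2 := h.le _ y _ hz'
        have h3 := h.le_length p
        have h4 := h.le_length q
        have e : z = z' := h.uni x y z z' hz hz' (by omega) (by omega)
        subst e
        rw [ih z y p q (by omega) hp hq]

theorem geodetic [Nonempty V] (h : GeoFun G d) : Geodetic G := by
  refine ⟨h.connected, fun u v => ?_⟩
  obtain ⟨p, hp⟩ := h.exists_walk _ u v rfl
  rw [h.dist_eq]
  refine ⟨p, ⟨?_, hp⟩, fun q hq => h.unique_walk _ u v q p rfl hq.2 hp⟩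
  apply Walk.isPath_of_length_eq_dist
  rw [h.dist_eq, hp]

/-- Transport along an isomorphism. -/
theorem comap {W : Type*} {H : SimpleGraph W} (h : GeoFun G d) (e : H ≃g G) :
    GeoFun H (fun x y => d (e x) (e y)) where
  zero x y := by rw [h.zero, e.injective.eq_iff]
  le x y z hxz := h.le _ _ _ (e.map_rel_iff.2 hxz)
  ex x y hne := by
    obtain ⟨z, hz, hz'⟩ := h.ex (e x) (e y) (e.injective.ne hne)
    refine ⟨e.symm z, ?_, ?_⟩
    · rw [← e.map_rel_iff]
      simpa using hz
    · simpa using hz'
  uni x y z z' hz hz' h1 h2 :=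
    e.injective (h.uni _ _ _ _ (e.map_rel_iff.2 hz) (e.map_rel_iff.2 hz') h1 h2)

end GeoFun

theorem TwoConnected.comap {V W : Type*} {G : SimpleGraph V} {H : SimpleGraph W}
    (h : TwoConnected G) (e : H ≃g G) : TwoConnected H := by
  refine ⟨?_, fun v => ?_⟩
  · rw [Nat.card_congr e.toEquiv]
    exact h.1
  · have h2 := h.2 (e v)
    let f : H.induce {w | w ≠ v} ≃g G.induce {w | w ≠ e v} :=
      { toEquiv := e.toEquiv.subtypeEquiv (fun a => by
          simp only [Set.mem_ofPred_eq, ne_eq]
          exact not_congr e.injective.eq_iff.symm)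
        map_rel_iff' := by
          intro a b
          simp only [comap_adj, Function.Embedding.subtype_apply]
          exact e.map_rel_iff }
    exact f.connected_iff.2 h2

end Pool.Agent.W948.Geo
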