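import Pool.Agent.W948.Geo.Crit

/-!
# The geodetic graph of a linear space

A linear space is given by its flags: a flag has a point, and the relation `r` says that two flags
have the same line. The graph has the points and the flags as vertices; a point is joined to its
flags, and any two flags of a line are joined.
-/

namespace Pool.Agent.W948.Geo

open SimpleGraph

/-- Linear spaces, given by flags. -/
structure FlagSpace (P F : Type*) where
  /-- the point of a flag -/
  pt : F → P
  /-- two flags have the same line -/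
  r : F → F → Prop
  refl : ∀ f, r f f
  symm : ∀ f g, r f g → r g f
  trans : ∀ f g h, r f g → r g h → r f h
  /-- a line contains a point only once -/
  inj : ∀ f g, r f g → pt f = pt g → f = g
  /-- two points are on a line -/
  line : ∀ p q, p ≠ q → ∃ f g, r f g ∧ pt f = p ∧ pt g = q
  /-- two points are on at most one line -/
  uniq : ∀ f g f' g', r f g → r f' g' → pt f = pt f' → pt g = pt g' → pt f ≠ pt g → f = f'

namespace FlagSpace

variable {P F : Type*} (S : FlagSpace P F)

/-- The graph of points and flags. -/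
def graph : SimpleGraph (P ⊕ F) where
  Adj x y := match x, y with
    | Sum.inl _, Sum.inl _ => False
    | Sum.inl p, Sum.inr f => S.pt f = p
    | Sum.inr f, Sum.inl p => S.pt f = p
    | Sum.inr f, Sum.inr g => S.r f g ∧ f ≠ g
  symm := ⟨fun x y h => by
    cases x <;> cases y
    · exact h
    · exact h
    · exact h
    · exact ⟨S.symm _ _ h.1, h.2.symm⟩⟩
  loopless := ⟨fun x h => by
    cases x
    · exact h
    · exact h.2 rfl⟩

@[simp] theorem adj_pp (p q : P) : S.graph.Adj (Sum.inl p) (Sum.inl q) ↔ False := Iff.rfl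
@[simp] theorem adj_pf (p : P) (f : F) : S.graph.Adj (Sum.inl p) (Sum.inr f) ↔ S.pt f = p := Iff.rfl
@[simp] theorem adj_fp (p : P) (f : F) : S.graph.Adj (Sum.inr f) (Sum.inl p) ↔ S.pt f = p := Iff.rfl
@[simp] theorem adj_ff (f g : F) : S.graph.Adj (Sum.inr f) (Sum.inr g) ↔ S.r f g ∧ f ≠ g := Iff.rfl

/-- The point `q` is on the line of `f`. -/
def On (f : F) (q : P) : Prop := ∃ g, S.r f g ∧ S.pt g = q

/-- The lines of `f` and `g` meet. -/
def Meet (f g : F) : Prop := ∃ f' g', S.r f f' ∧ S.r g g' ∧ S.pt f' = S.pt g'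

theorem on_self (f : F) : S.On f (S.pt f) := ⟨f, S.refl f, rfl⟩

theorem on_congr {f g : F} (h : S.r f g) (q : P) : S.On f q ↔ S.On g q := by
  constructor
  · rintro ⟨k, hk, hq⟩
    exact ⟨k, S.trans _ _ _ (S.symm _ _ h) hk, hq⟩
  · rintro ⟨k, hk, hq⟩
    exact ⟨k, S.trans _ _ _ h hk, hq⟩

theorem meet_congr {f g h : F} (hr : S.r f g) : S.Meet f h ↔ S.Meet g h := by
  constructor
  · rintro ⟨k, l, hk, hl, e⟩
    exact ⟨k, l, S.trans _ _ _ (S.symm _ _ hr) hk, hl, e⟩
  · rintro ⟨k, l, hk, hl, e⟩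
    exact ⟨k, l, S.trans _ _ _ hr hk, hl, e⟩

/-- Lines that have two points in common are equal. -/
theorem line_eq {f g : F} {p q : P} (hpq : p ≠ q) (h1 : S.On f p) (h2 : S.On f q)
    (h3 : S.On g p) (h4 : S.On g q) : S.r f g := by
  obtain ⟨a, ha, rfl⟩ := h1
  obtain ⟨b, hb, rfl⟩ := h2
  obtain ⟨c, hc, hc'⟩ := h3
  obtain ⟨d, hd, hd'⟩ := h4
  have hab := S.trans _ _ _ (S.symm _ _ ha) hb
  have hcd := S.trans _ _ _ (S.symm _ _ hc) hd
  have : a = c := S.uniq a b c d hab hcd hc'.symm hd'.symm hpq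
  subst this
  exact S.trans _ _ _ ha (S.symm _ _ hc)

open Classical in
/-- The distance. -/
noncomputable def dst (x y : P ⊕ F) : ℕ :=
  match x, y with
  | Sum.inl p, Sum.inl q => if p = q then 0 else 3
  | Sum.inl p, Sum.inr g => if S.pt g = p then 1 else if S.On g p then 2 else 4
  | Sum.inr f, Sum.inl q => if S.pt f = q then 1 else if S.On f q then 2 else 4
  | Sum.inr f, Sum.inr g => if f = g then 0 else if S.r f g then 1 else
      if S.pt f = S.pt g then 2 else if S.On f (S.pt g) ∨ S.On g (S.pt f) then 3 else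
      if S.Meet f g then 4 else 5

open Classical in
theorem dst_pp (p q : P) : S.dst (Sum.inl p) (Sum.inl q) = if p = q then 0 else 3 := rfl
open Classical in
theorem dst_pf (p : P) (g : F) : S.dst (Sum.inl p) (Sum.inr g) =
    if S.pt g = p then 1 else if S.On g p then 2 else 4 := rfl
open Classical in
theorem dst_fp (f : F) (q : P) : S.dst (Sum.inr f) (Sum.inl q) =
    if S.pt f = q then 1 else if S.On f q then 2 else 4 := rfl
open Classical in
theorem dst_ff (f g : F) : S.dst (Sum.inr f) (Sum.inr g) =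
    if f = g then 0 else if S.r f g then 1 else
      if S.pt f = S.pt g then 2 else if S.On f (S.pt g) ∨ S.On g (S.pt f) then 3 else
      if S.Meet f g then 4 else 5 := rfl

theorem meet_of_on {f g : F} (h : S.On f (S.pt g)) : S.Meet f g := by
  obtain ⟨k, hk, hk'⟩ := h
  exact ⟨k, g, hk, S.refl g, hk'⟩

theorem meet_of_on' {f g : F} (h : S.On g (S.pt f)) : S.Meet f g := by
  obtain ⟨k, hk, hk'⟩ := h
  exact ⟨f, k, S.refl f, hk, hk'.symm⟩

theorem dst_le_five (x y : P ⊕ F) : S.dst x y ≤ 5 := by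
  rcases x with p | f <;> rcases y with q | g
  · rw [dst_pp]; split_ifs <;> omega
  · rw [dst_pf]; split_ifs <;> omega
  · rw [dst_fp]; split_ifs <;> omega
  · rw [dst_ff]; split_ifs <;> omega

theorem dst_zero (x y : P ⊕ F) : S.dst x y = 0 ↔ x = y := by
  classical
  rcases x with p | f <;> rcases y with q | g
  · rw [dst_pp]
    split_ifs with h <;> simp [h]
  · rw [dst_pf]
    split_ifs <;> simp
  · rw [dst_fp]
    split_ifs <;> simp
  · rw [dst_ff]
    split_ifs with h <;> simp [h]

theorem dst_le (x y z : P ⊕ F) (h : S.graph.Adj x z) : S.dst x y ≤ S.dst z y + 1 := by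
  classical
  rcases x with p | f <;> rcases z with p' | f' <;> rcases y with q | g
  · exact absurd h id
  · exact absurd h id
  · rw [adj_pf] at h
    subst h
    rw [dst_pp, dst_fp]
    split_ifs <;> omega
  · rw [adj_pf] at h
    subst h
    rw [dst_pf, dst_ff]
    by_cases h1 : S.On g (S.pt f')
    · by_cases h2 : f' = g
      · subst h2; simp
      · rw [if_neg h2]
        split_ifs <;> omega
    · have h2 : f' ≠ g := by rintro rfl; exact h1 (S.on_self _)
      have h3 : ¬ S.r f' g := fun h3 => h1 ⟨f', S.symm _ _ h3, rfl⟩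
      have h4 : S.pt f' ≠ S.pt g := fun h4 => h1 (h4 ▸ S.on_self g)
      rw [if_neg h2, if_neg h3, if_neg h4]
      split_ifs <;> omega
  · rw [adj_fp] at h
    subst h
    rw [dst_pp, dst_fp]
    split_ifs <;> omega
  · rw [adj_fp] at h
    subst h
    rw [dst_pf, dst_ff]
    by_cases h1 : S.pt g = S.pt f
    · rw [if_pos h1, if_pos h1.symm]
      split_ifs <;> omega
    · rw [if_neg h1]
      by_cases h2 : S.On g (S.pt f)
      · rw [if_pos h2]
        split_ifs <;> first | omega | tauto
      · rw [if_neg h2]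
        split_ifs <;> omega
  · rw [adj_ff] at h
    rw [dst_fp, dst_fp]
    have := S.on_congr h.1 q
    have k2 : S.pt f' = q → S.On f q := fun e => ⟨f', h.1, e⟩
    split_ifs <;> first | omega | tauto
  · rw [adj_ff] at h
    rw [dst_ff, dst_ff]
    have h1 : S.r f' g ↔ S.r f g :=
      ⟨fun k => S.trans _ _ _ h.1 k, fun k => S.trans _ _ _ (S.symm _ _ h.1) k⟩
    have h2 := S.meet_congr (h := g) h.1
    by_cases h3 : f' = g
    · have h4 : S.r f g := h3 ▸ h.1
      rw [if_pos h3, if_pos h4]
      split_ifs <;> omega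
    · rw [if_neg h3]
      by_cases h4 : S.r f g
      · rw [if_pos h4, if_pos (h1.2 h4)]
        split_ifs <;> omega
      · rw [if_neg h4, if_neg (fun k => h4 (h1.1 k))]
        by_cases h5 : S.pt f' = S.pt g
        · have h6 : S.On f (S.pt g) := ⟨f', h.1, h5⟩
          rw [if_pos h5]
          split_ifs <;> first | omega | tauto
        · rw [if_neg h5]
          by_cases h6 : S.On f' (S.pt g) ∨ S.On g (S.pt f')
          · rw [if_pos h6]
            have h7 : S.Meet f' g := by
              rcases h6 with h6 | h6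
              · exact S.meet_of_on h6
              · exact S.meet_of_on' h6
            have h8 := h2.2 h7
            split_ifs <;> omega
          · rw [if_neg h6]
            split_ifs <;> omega

/-- Two different flags with different points on each other's lines have the same line. -/
theorem r_of_on_on {f g : F} (hne : S.pt f ≠ S.pt g) (h1 : S.On f (S.pt g))
    (h2 : S.On g (S.pt f)) : S.r f g :=
  S.line_eq hne (S.on_self f) h1 h2 (S.on_self g)

theorem dst_ex (x y : P ⊕ F) (hne : x ≠ y) :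
    ∃ z, S.graph.Adj x z ∧ S.dst z y + 1 = S.dst x y := by
  classical
  rcases x with p | f <;> rcases y with q | g
  · have hpq : p ≠ q := fun h => hne (by rw [h])
    obtain ⟨f, g, h1, h2, h3⟩ := S.line p q hpq
    refine ⟨Sum.inr f, h2, ?_⟩
    rw [dst_fp, dst_pp, if_neg hpq, if_neg (by rw [h2]; exact hpq), if_pos ⟨g, h1, h3⟩]
  · rw [dst_pf]
    by_cases h1 : S.pt g = p
    · exact ⟨Sum.inr g, h1, by rw [dst_ff, if_pos rfl, if_pos h1]⟩
    · rw [if_neg h1]
      by_cases h2 : S.On g p
      · obtain ⟨f, h3, h4⟩ := h2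
        refine ⟨Sum.inr f, h4, ?_⟩
        have h5 : f ≠ g := by rintro rfl; exact h1 h4
        rw [dst_ff, if_neg h5, if_pos (S.symm _ _ h3), if_pos ⟨f, h3, h4⟩]
      · rw [if_neg h2]
        obtain ⟨f, k, h3, h4, h5⟩ := S.line p (S.pt g) (Ne.symm h1)
        refine ⟨Sum.inr f, h4, ?_⟩
        have h6 : f ≠ g := by rintro rfl; exact h1 h4
        have h7 : ¬ S.r f g := fun h7 => h2 ⟨f, S.symm _ _ h7, h4⟩
        have h8 : S.pt f ≠ S.pt g := by rw [h4]; exact Ne.symm h1
        rw [dst_ff, if_neg h6, if_neg h7, if_neg h8, if_pos (Or.inl ⟨k, h3, h5⟩)]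
  · rw [dst_fp]
    by_cases h1 : S.pt f = q
    · exact ⟨Sum.inl q, h1, by rw [dst_pp, if_pos rfl, if_pos h1]⟩
    · rw [if_neg h1]
      by_cases h2 : S.On f q
      · obtain ⟨k, h3, h4⟩ := h2
        refine ⟨Sum.inr k, ⟨h3, ?_⟩, ?_⟩
        · rintro rfl; exact h1 h4
        · rw [dst_fp, if_pos h4, if_pos ⟨k, h3, h4⟩]
      · rw [if_neg h2]
        exact ⟨Sum.inl (S.pt f), rfl, by rw [dst_pp, if_neg h1]⟩
  · have hfg : f ≠ g := fun h => hne (by rw [h])
    rw [dst_ff, if_neg hfg]
    by_cases h1 : S.r f g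
    · rw [if_pos h1]
      exact ⟨Sum.inr g, ⟨h1, hfg⟩, by rw [dst_ff, if_pos rfl]⟩
    · rw [if_neg h1]
      by_cases h2 : S.pt f = S.pt g
      · rw [if_pos h2]
        exact ⟨Sum.inl (S.pt f), rfl, by rw [dst_pf, if_pos h2.symm]⟩
      · rw [if_neg h2]
        by_cases h3 : S.On f (S.pt g)
        · rw [if_pos (Or.inl h3)]
          obtain ⟨k, h4, h5⟩ := h3
          refine ⟨Sum.inr k, ⟨h4, ?_⟩, ?_⟩
          · rintro rfl; exact h2 h5
          · have h6 : k ≠ g := by rintro rfl; exact h1 h4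
            have h7 : ¬ S.r k g := fun h7 => h1 (S.trans _ _ _ h4 h7)
            rw [dst_ff, if_neg h6, if_neg h7, if_pos h5]
        · by_cases h4 : S.On g (S.pt f)
          · rw [if_pos (Or.inr h4)]
            exact ⟨Sum.inl (S.pt f), rfl, by rw [dst_pf, if_neg (Ne.symm h2), if_pos h4]⟩
          · rw [if_neg (not_or.2 ⟨h3, h4⟩)]
            by_cases h5 : S.Meet f g
            · rw [if_pos h5]
              obtain ⟨k, l, h6, h7, h8⟩ := h5
              refine ⟨Sum.inr k, ⟨h6, ?_⟩, ?_⟩
              · rintro rfl; exact h4 ⟨l, h7, h8.symm⟩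
              · have h9 : k ≠ g := by rintro rfl; exact h1 h6
                have h10 : ¬ S.r k g := fun h7 => h1 (S.trans _ _ _ h6 h7)
                have h11 : S.pt k ≠ S.pt g := fun h11 => h3 ⟨k, h6, h11⟩
                rw [dst_ff, if_neg h9, if_neg h10, if_neg h11, if_pos (Or.inr ⟨l, h7, h8.symm⟩)]
            · rw [if_neg h5]
              exact ⟨Sum.inl (S.pt f), rfl, by rw [dst_pf, if_neg (Ne.symm h2), if_neg h4]⟩

/-- The next vertex on the way to a point. -/
theorem next_p {x z : P ⊕ F} {q : P} (hz : S.graph.Adj x z)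
    (h : S.dst z (Sum.inl q) + 1 = S.dst x (Sum.inl q)) :
    (∃ p f, x = Sum.inl p ∧ z = Sum.inr f ∧ p ≠ q ∧ S.pt f = p ∧ S.On f q) ∨
    (∃ f, x = Sum.inr f ∧ z = Sum.inl (S.pt f) ∧ (S.pt f = q ∨ ¬ S.On f q)) ∨
    (∃ f g, x = Sum.inr f ∧ z = Sum.inr g ∧ S.pt f ≠ q ∧ S.r f g ∧ S.pt g = q) := by
  classical
  rcases x with p | f <;> rcases z with p' | f'
  · exact absurd hz id
  · rw [adj_pf] at hz
    subst hz
    left
    rw [dst_fp, dst_pp] at h
    by_cases h1 : S.pt f' = q
    · rw [if_pos h1, if_pos h1] at h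
      omega
    · rw [if_neg h1, if_neg h1] at h
      by_cases h3 : S.On f' q
      · exact ⟨_, f', rfl, rfl, h1, rfl, h3⟩
      · rw [if_neg h3] at h
        omega
  · rw [adj_fp] at hz
    subst hz
    right; left
    rw [dst_fp, dst_pp] at h
    refine ⟨f, rfl, rfl, ?_⟩
    by_cases h1 : S.pt f = q
    · exact Or.inl h1
    · right
      intro h2
      rw [if_neg h1, if_neg h1, if_pos h2] at h
      omega
  · rw [adj_ff] at hz
    right; right
    rw [dst_fp, dst_fp] at h
    have h0 := S.on_congr hz.1 q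
    by_cases h1 : S.pt f' = q
    · refine ⟨f, f', rfl, rfl, ?_, hz.1, h1⟩
      intro h2
      exact hz.2 (S.inj _ _ hz.1 (h2.trans h1.symm))
    · exfalso
      rw [if_neg h1] at h
      split_ifs at h <;> first | omega | tauto

/-- The next vertex on the way to a flag. -/
theorem next_f {x z : P ⊕ F} {g : F} (hz : S.graph.Adj x z)
    (h : S.dst z (Sum.inr g) + 1 = S.dst x (Sum.inr g)) :
    (∃ p f, x = Sum.inl p ∧ z = Sum.inr f ∧ S.pt f = p ∧
      (f = g ∨ (f ≠ g ∧ S.r f g) ∨ (¬ S.On g p ∧ p ≠ S.pt g ∧ S.On f (S.pt g)))) ∨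
    (∃ f, x = Sum.inr f ∧ z = Sum.inl (S.pt f) ∧ ¬ S.r f g ∧
      (S.pt f = S.pt g ∨ (S.pt f ≠ S.pt g ∧ S.On g (S.pt f)) ∨ ¬ S.Meet f g)) ∨
    (∃ f k, x = Sum.inr f ∧ z = Sum.inr k ∧ S.r f k ∧
      (k = g ∨ (¬ S.r f g ∧ S.pt f ≠ S.pt g ∧ S.pt k = S.pt g) ∨
        (¬ S.r f g ∧ S.pt f ≠ S.pt g ∧ ¬ S.On f (S.pt g) ∧ ¬ S.On g (S.pt f) ∧
          S.On g (S.pt k)))) := by
  classical
  rcases x with p | f <;> rcases z with p' | f'
  · exact absurd hz id
  · rw [adj_pf] at hz
    subst hz
    left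
    refine ⟨_, f', rfl, rfl, rfl, ?_⟩
    rw [dst_pf, dst_ff] at h
    by_cases h1 : f' = g
    · exact Or.inl h1
    · rw [if_neg h1] at h
      by_cases h2 : S.r f' g
      · exact Or.inr (Or.inl ⟨h1, h2⟩)
      · rw [if_neg h2] at h
        right; right
        by_cases h3 : S.pt f' = S.pt g
        · rw [if_pos h3, if_pos h3.symm] at h
          omega
        · rw [if_neg h3, if_neg (Ne.symm h3)] at h
          by_cases h4 : S.On g (S.pt f')
          · rw [if_pos (Or.inr h4), if_pos h4] at h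
            omega
          · rw [if_neg h4] at h
            by_cases h5 : S.On f' (S.pt g)
            · exact ⟨h4, h3, h5⟩
            · rw [if_neg (not_or.2 ⟨h5, h4⟩)] at h
              split_ifs at h <;> omega
  · rw [adj_fp] at hz
    subst hz
    right; left
    refine ⟨f, rfl, rfl, ?_⟩
    rw [dst_pf, dst_ff] at h
    by_cases h1 : f = g
    · rw [if_pos h1] at h; omega
    · rw [if_neg h1] at h
      by_cases h2 : S.r f g
      · rw [if_pos h2] at h
        split_ifs at h <;> omega
      · refine ⟨h2, ?_⟩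
        rw [if_neg h2] at h
        by_cases h3 : S.pt f = S.pt g
        · exact Or.inl h3
        · rw [if_neg h3, if_neg (Ne.symm h3)] at h
          by_cases h4 : S.On g (S.pt f)
          · exact Or.inr (Or.inl ⟨h3, h4⟩)
          · rw [if_neg h4] at h
            right; right
            intro h5
            split_ifs at h <;> omega
  · rw [adj_ff] at hz
    right; right
    refine ⟨f, f', rfl, rfl, hz.1, ?_⟩
    rw [dst_ff, dst_ff] at h
    have e1 : S.r f' g ↔ S.r f g :=
      ⟨fun k => S.trans _ _ _ hz.1 k, fun k => S.trans _ _ _ (S.symm _ _ hz.1) k⟩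
    have e2 := S.meet_congr (h := g) hz.1
    have e3 := S.on_congr hz.1 (S.pt g)
    by_cases h1 : f' = g
    · exact Or.inl h1
    · rw [if_neg h1] at h
      by_cases h0 : f = g
      · rw [if_pos h0] at h; omega
      rw [if_neg h0] at h
      by_cases h2 : S.r f g
      · rw [if_pos h2, if_pos (e1.2 h2)] at h
        omega
      · rw [if_neg h2, if_neg (fun k => h2 (e1.1 k))] at h
        by_cases h3 : S.pt f' = S.pt g
        · right; left
          refine ⟨h2, ?_, h3⟩
          intro h4
          exact hz.2 (S.inj _ _ hz.1 (h4.trans h3.symm))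
        · rw [if_neg h3] at h
          by_cases h4 : S.pt f = S.pt g
          · rw [if_pos h4] at h
            split_ifs at h <;> omega
          · rw [if_neg h4] at h
            by_cases h5 : S.On f (S.pt g)
            · rw [if_pos (Or.inl h5), if_pos (Or.inl (e3.1 h5))] at h
              omega
            · by_cases h6 : S.On g (S.pt f)
              · rw [if_pos (Or.inr h6)] at h
                split_ifs at h <;> omega
              · rw [if_neg (not_or.2 ⟨h5, h6⟩)] at h
                by_cases h7 : S.On g (S.pt f')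
                · exact Or.inr (Or.inr ⟨h2, h4, h5, h6, h7⟩)
                · rw [if_neg (not_or.2 ⟨fun k => h5 (e3.2 k), h7⟩)] at h
                  split_ifs at h <;> first | omega | tauto

theorem dst_uni (x y z z' : P ⊕ F) (hz : S.graph.Adj x z) (hz' : S.graph.Adj x z')
    (h : S.dst z y + 1 = S.dst x y) (h' : S.dst z' y + 1 = S.dst x y) : z = z' := by
  rcases y with q | g
  · rcases S.next_p hz h with ⟨p, f, rfl, rfl, h1, h2, h3⟩ | ⟨f, rfl, rfl, h1⟩ |
      ⟨f, k, rfl, rfl, h1, h2, h3⟩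
    · rcases S.next_p hz' h' with ⟨p', f', e, rfl, h1', h2', h3'⟩ | ⟨f', e, rfl, h1'⟩ |
        ⟨f', k', e, rfl, h1', h2', h3'⟩
      · obtain ⟨k, hk, hk'⟩ := h3
        obtain ⟨k', hk1, hk1'⟩ := h3'
        cases e
        rw [S.uniq f k f' k' hk hk1 (h2.trans h2'.symm) (hk'.trans hk1'.symm)
          (by rw [h2, hk']; exact h1)]
      · cases e
      · cases e
    · rcases S.next_p hz' h' with ⟨p', f', e, rfl, h1', h2', h3'⟩ | ⟨f', e, rfl, h1'⟩ |
        ⟨f', k', e, rfl, h1', h2', h3'⟩
      · cases e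
      · cases e; rfl
      · cases e
        exfalso
        rcases h1 with h1 | h1
        · exact h1' h1
        · exact h1 ⟨k', h2', h3'⟩
    · rcases S.next_p hz' h' with ⟨p', f', e, rfl, h1', h2', h3'⟩ | ⟨f', e, rfl, h1'⟩ |
        ⟨f', k', e, rfl, h1', h2', h3'⟩
      · cases e
      · cases e
        exfalso
        rcases h1' with h1' | h1'
        · exact h1 h1'
        · exact h1' ⟨k, h2, h3⟩
      · cases e
        rw [S.inj k k' (S.trans _ _ _ (S.symm _ _ h2) h2') (h3.trans h3'.symm)]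
  · rcases S.next_f hz h with ⟨p, f, rfl, rfl, h1, h2⟩ | ⟨f, rfl, rfl, h1, h2⟩ |
      ⟨f, k, rfl, rfl, h1, h2⟩
    · rcases S.next_f hz' h' with ⟨p', f', e, rfl, h1', h2'⟩ | ⟨f', e, rfl, h1', h2'⟩ |
        ⟨f', k', e, rfl, h1', h2'⟩
      · cases e
        have key : ∀ a b : F, S.pt a = p → S.pt b = p → S.r a g → S.r b g → a = b :=
          fun a b ha hb ra rb => S.inj _ _ (S.trans _ _ _ ra (S.symm _ _ rb)) (ha.trans hb.symm)
        have hr : ∀ a : F, a = g ∨ (a ≠ g ∧ S.r a g) → S.r a g := by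
          rintro a (rfl | h)
          · exact S.refl _
          · exact h.2
        have hno : ∀ a : F, S.pt a = p → S.r a g → S.On g p :=
          fun a ha ra => ⟨a, S.symm _ _ ra, ha⟩
        rcases h2 with h2 | h2 | ⟨h3, h4, h5⟩
        · rcases h2' with h2' | h2' | ⟨h3', h4', h5'⟩
          · rw [h2, h2']
          · rw [key f f' h1 h1' (hr _ (Or.inl h2)) h2'.2]
          · exact absurd (hno f h1 (hr _ (Or.inl h2))) h3'
        · rcases h2' with h2' | h2' | ⟨h3', h4', h5'⟩
          · rw [key f f' h1 h1' h2.2 (hr _ (Or.inl h2'))]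
          · rw [key f f' h1 h1' h2.2 h2'.2]
          · exact absurd (hno f h1 h2.2) h3'
        · rcases h2' with h2' | h2' | ⟨h3', h4', h5'⟩
          · exact absurd (hno f' h1' (hr _ (Or.inl h2'))) h3
          · exact absurd (hno f' h1' h2'.2) h3
          · obtain ⟨k, hk, hk'⟩ := h5
            obtain ⟨k', hk1, hk1'⟩ := h5'
            rw [S.uniq f k f' k' hk hk1 (h1.trans h1'.symm) (hk'.trans hk1'.symm)
              (by rw [h1, hk']; exact h4)]
      · cases e
      · cases e
    · rcases S.next_f hz' h' with ⟨p', f', e, rfl, h1', h2'⟩ | ⟨f', e, rfl, h1', h2'⟩ |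
        ⟨f', k', e, rfl, h1', h2'⟩
      · cases e
      · cases e; rfl
      · cases e
        exfalso
        rcases h2' with rfl | ⟨_, h3, h4⟩ | ⟨_, h3, h4, h5, h6⟩
        · exact h1 h1'
        · rcases h2 with h2 | ⟨_, h2⟩ | h2
          · exact h3 h2
          · exact h1 (S.r_of_on_on h3 ⟨k', h1', h4⟩ h2)
          · exact h2 (S.meet_of_on ⟨k', h1', h4⟩)
        · rcases h2 with h2 | ⟨_, h2⟩ | h2
          · exact h3 h2
          · exact h5 h2
          · obtain ⟨l, hl, hl'⟩ := h6
            exact h2 ⟨k', l, h1', hl, hl'.symm⟩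
    · rcases S.next_f hz' h' with ⟨p', f', e, rfl, h1', h2'⟩ | ⟨f', e, rfl, h1', h2'⟩ |
        ⟨f', k', e, rfl, h1', h2'⟩
      · cases e
      · cases e
        exfalso
        rcases h2 with rfl | ⟨_, h3, h4⟩ | ⟨_, h3, h4, h5, h6⟩
        · exact h1' h1
        · rcases h2' with h2 | ⟨_, h2⟩ | h2
          · exact h3 h2
          · exact h1' (S.r_of_on_on h3 ⟨k, h1, h4⟩ h2)
          · exact h2 (S.meet_of_on ⟨k, h1, h4⟩)
        · rcases h2' with h2 | ⟨_, h2⟩ | h2
          · exact h3 h2
          · exact h5 h2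
          · obtain ⟨l, hl, hl'⟩ := h6
            exact h2 ⟨k, l, h1, hl, hl'.symm⟩
      · cases e
        have hkk : S.r k k' := S.trans _ _ _ (S.symm _ _ h1) h1'
        rcases h2 with rfl | ⟨h0, h3, h4⟩ | ⟨h0, h3, h4, h5, h6⟩
        · rcases h2' with rfl | ⟨h0', h3', h4'⟩ | ⟨h0', h3', h4', h5', h6'⟩
          · rfl
          · exact absurd h1 h0'
          · exact absurd h1 h0'
        · rcases h2' with rfl | ⟨h0', h3', h4'⟩ | ⟨h0', h3', h4', h5', h6'⟩
          · exact absurd h1' h0
          · rw [S.inj k k' hkk (h4.trans h4'.symm)]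
          · exact absurd ⟨k, h1, h4⟩ h4'
        · rcases h2' with rfl | ⟨h0', h3', h4'⟩ | ⟨h0', h3', h4', h5', h6'⟩
          · exact absurd h1' h0
          · exact absurd ⟨k', h1', h4'⟩ h4
          · by_cases hpt : S.pt k = S.pt k'
            · rw [S.inj k k' hkk hpt]
            · exact absurd (S.line_eq hpt ⟨k, h1, rfl⟩ ⟨k', h1', rfl⟩ h6 h6') h0

theorem geoFun : GeoFun S.graph S.dst where
  zero := S.dst_zero
  le := S.dst_le
  ex := S.dst_ex
  uni := S.dst_uni

end FlagSpace

end Pool.Agent.W948.Geo
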