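import Pool.Agent.W948.Geo.Code

/-!
# The computed graph is the geodetic graph of the given graph
-/

namespace Pool.Agent.NPC.GeoC

open Pool.Agent.NPC Pool.Agent.NPC.R671 Pool.Agent.W948.Geo

variable {n : ℕ} (K : SimpleGraph (Fin n))

theorem length_adjMatrix : (adjMatrix K).length = n := by simp [adjMatrix]

theorem entry_adjMatrix (u v : Fin n) : entry (adjMatrix K) u v = true ↔ K.Adj u v := by
  unfold entry adjMatrix
  simp [List.getD_eq_getElem?_getD]

/-- The code of a point. -/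
def cp : Pt K → Pc
  | Sum.inl x => (0, x.1, x.2)
  | Sum.inr (Sum.inl e) => (1, e.1.inf, e.1.sup)
  | Sum.inr (Sum.inr k) => (2, k, 0)

theorem sym2_eq {a b : Sym2 (Fin n)} (h1 : a.inf = b.inf) (h2 : a.sup = b.sup) : a = b := by
  apply Sym2.sortEquiv.injective
  exact Subtype.ext (Prod.ext h1 h2)

theorem cp_inj : Function.Injective (cp K) := by
  rintro (⟨u, k⟩ | e | k) (⟨v, l⟩ | e' | l) h
  · simp only [cp, Prod.mk.injEq, true_and] at h
    rw [Fin.ext h.1, Fin.ext h.2]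
  · simp [cp] at h
  · simp [cp] at h
  · simp [cp] at h
  · simp only [cp, Prod.mk.injEq, true_and] at h
    rw [Subtype.ext (sym2_eq (Fin.ext h.1) (Fin.ext h.2))]
  · simp [cp] at h
  · simp [cp] at h
  · simp [cp] at h
  · simp only [cp, Prod.mk.injEq, true_and, and_true] at h
    rw [Fin.ext h]

theorem mem_sym2_iff (e : Sym2 (Fin n)) (v : Fin n) : v ∈ e ↔ e.inf = v ∨ e.sup = v := by
  induction e with
  | h a b =>
    rw [Sym2.mem_iff, Sym2.inf_mk, Sym2.sup_mk]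
    rcases le_total a b with h | h
    · rw [inf_eq_left.2 h, sup_eq_right.2 h]
      exact or_congr eq_comm eq_comm
    · rw [inf_eq_right.2 h, sup_eq_left.2 h]
      rw [or_comm]
      exact or_congr eq_comm eq_comm

theorem incB_cp (p : Pt K) (v : Fin n) : incB (cp K p) v = true ↔ gInc K p v := by
  rcases p with ⟨u, k⟩ | e | k
  · have h : cp K (Sum.inl (u, k)) = (0, ((u : ℕ), (k : ℕ))) := rfl
    rw [h]
    simp [incB, gInc, Fin.ext_iff]
  · have h : cp K (Sum.inr (Sum.inl e)) = (1, ((e.1.inf : ℕ), (e.1.sup : ℕ))) := rfl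
    rw [h]
    simp only [gInc]
    rw [mem_sym2_iff]
    simp [incB, Fin.ext_iff]
  · simp [incB, cp, gInc]

theorem mem_pts (z : Pc) : z ∈ pts (adjMatrix K) ↔ ∃ p, cp K p = z := by
  simp only [pts, List.mem_append, List.mem_flatMap, List.mem_range, length_adjMatrix, edgePts,
    List.mem_map, List.mem_filter, Bool.and_eq_true, decide_eq_true_eq]
  constructor
  · rintro (⟨u, hu, h⟩ | ⟨u, hu, v, ⟨hv, huv, h⟩, rfl⟩ | h)
    · simp only [List.mem_cons, List.not_mem_nil, or_false] at h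
      rcases h with rfl | rfl | rfl
      · exact ⟨Sum.inl (⟨u, hu⟩, 0), rfl⟩
      · exact ⟨Sum.inl (⟨u, hu⟩, 1), rfl⟩
      · exact ⟨Sum.inl (⟨u, hu⟩, 2), rfl⟩
    · have h1 : K.Adj ⟨u, hu⟩ ⟨v, hv⟩ := (entry_adjMatrix K ⟨u, hu⟩ ⟨v, hv⟩).1 h
      refine ⟨Sum.inr (Sum.inl ⟨s(⟨u, hu⟩, ⟨v, hv⟩), h1⟩), ?_⟩
      have h2 : (⟨u, hu⟩ : Fin n) ≤ ⟨v, hv⟩ := by
        rw [Fin.le_def]; exact huv.le
      simp only [cp, Sym2.inf_mk, Sym2.sup_mk]
      rw [inf_eq_left.2 h2, sup_eq_right.2 h2]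
    · simp only [List.mem_cons, List.not_mem_nil, or_false] at h
      rcases h with rfl | rfl | rfl
      · exact ⟨Sum.inr (Sum.inr 0), rfl⟩
      · exact ⟨Sum.inr (Sum.inr 1), rfl⟩
      · exact ⟨Sum.inr (Sum.inr 2), rfl⟩
  · rintro ⟨p, rfl⟩
    rcases p with ⟨u, k⟩ | ⟨e, he⟩ | k
    · left
      refine ⟨u, u.2, ?_⟩
      fin_cases k <;> simp [cp]
    · right; left
      induction e with
      | h a b =>
        have hab : K.Adj a b := he
        rcases lt_or_gt_of_ne hab.ne with h | h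
        · refine ⟨a, a.2, b, ⟨b.2, h, (entry_adjMatrix K a b).2 hab⟩, ?_⟩
          simp only [cp, Sym2.inf_mk, Sym2.sup_mk]
          rw [inf_eq_left.2 h.le, sup_eq_right.2 h.le]
        · refine ⟨b, b.2, a, ⟨a.2, h, (entry_adjMatrix K b a).2 hab.symm⟩, ?_⟩
          simp only [cp, Sym2.inf_mk, Sym2.sup_mk]
          rw [inf_eq_right.2 (le_of_lt h), sup_eq_left.2 (le_of_lt h)]
    · right; right
      fin_cases k <;> simp [cp]

theorem nodup_edgePts (M : List (List Bool)) : (edgePts M).Nodup := by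
  unfold edgePts
  rw [List.nodup_flatMap]
  refine ⟨fun u _ => List.Nodup.map (fun a b h => by simpa using h)
    (List.nodup_range.filter _), ?_⟩
  refine List.Pairwise.imp ?_ List.nodup_range
  intro a b hab
  rw [Function.onFun, List.disjoint_left]
  intro z hz hz'
  simp only [List.mem_map] at hz hz'
  obtain ⟨v, _, rfl⟩ := hz
  obtain ⟨w, _, h⟩ := hz'
  simp only [Prod.mk.injEq, true_and] at h
  exact hab h.1.symm

theorem nodup_pts (M : List (List Bool)) : (pts M).Nodup := by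
  unfold pts
  rw [List.nodup_append, List.nodup_append]
  refine ⟨?_, ⟨nodup_edgePts M, by decide, ?_⟩, ?_⟩
  · rw [List.nodup_flatMap]
    refine ⟨fun u _ => by simp, ?_⟩
    refine List.Pairwise.imp ?_ List.nodup_range
    intro a b hab
    rw [Function.onFun, List.disjoint_left]
    intro z hz hz'
    simp only [List.mem_cons, List.not_mem_nil, or_false] at hz hz'
    rcases hz with rfl | rfl | rfl <;> simp [hab] at hz'
  · intro a ha b hb hab
    subst hab
    simp only [edgePts, List.mem_flatMap, List.mem_map] at ha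
    obtain ⟨u, _, v, _, rfl⟩ := ha
    simp at hb
  · intro a ha b hb hab
    subst hab
    simp only [List.mem_flatMap, List.mem_cons, List.not_mem_nil, or_false] at ha
    rw [List.mem_append] at hb
    obtain ⟨u, _, ha⟩ := ha
    rcases hb with hb | hb
    · simp only [edgePts, List.mem_flatMap, List.mem_map] at hb
      obtain ⟨v, _, w, _, rfl⟩ := hb
      simp at ha
    · rcases ha with rfl | rfl | rfl <;> simp at hb

theorem nodup_bigF (M : List (List Bool)) : (bigF M).Nodup := by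
  unfold bigF
  rw [List.nodup_flatMap]
  refine ⟨fun u _ => List.Nodup.map (fun a b h => by simpa using h)
    (List.nodup_range.filter _), ?_⟩
  refine List.Pairwise.imp ?_ (nodup_pts M)
  intro a b hab
  rw [Function.onFun, List.disjoint_left]
  intro z hz hz'
  simp only [List.mem_map] at hz hz'
  obtain ⟨v, _, rfl⟩ := hz
  obtain ⟨w, _, h⟩ := hz'
  exact hab (Prod.mk.inj h).1.symm

theorem nodup_smallF (M : List (List Bool)) : (smallF M).Nodup := by
  unfold smallF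
  rw [List.nodup_flatMap]
  refine ⟨fun u _ => List.Nodup.map (fun a b h => (Prod.mk.inj h).2)
    ((nodup_pts M).filter _), ?_⟩
  refine List.Pairwise.imp ?_ (nodup_pts M)
  intro a b hab
  rw [Function.onFun, List.disjoint_left]
  intro z hz hz'
  simp only [List.mem_map] at hz hz'
  obtain ⟨v, _, rfl⟩ := hz
  obtain ⟨w, _, h⟩ := hz'
  exact hab (Prod.mk.inj h).1.symm

theorem nodup_vs (M : List (List Bool)) : (vs M).Nodup := by
  unfold vs
  rw [List.nodup_append, List.nodup_append]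
  refine ⟨(nodup_pts M).map Sum.inl_injective,
    ⟨(nodup_bigF M).map (Sum.inr_injective.comp Sum.inl_injective),
      (nodup_smallF M).map (Sum.inr_injective.comp Sum.inr_injective), ?_⟩, ?_⟩
  · intro a ha b hb hab
    subst hab
    simp only [List.mem_map] at ha hb
    obtain ⟨x, _, rfl⟩ := ha
    obtain ⟨y, _, h⟩ := hb
    cases h
  · intro a ha b hb hab
    subst hab
    simp only [List.mem_map, List.mem_append] at ha hb
    obtain ⟨x, _, rfl⟩ := ha
    rcases hb with ⟨y, _, h⟩ | ⟨y, _, h⟩ <;> cases h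

/-- The code of a vertex. -/
def cv : Pt K ⊕ PFlag (gInc K) → Vc
  | Sum.inl p => Sum.inl (cp K p)
  | Sum.inr (Sum.inl x) => Sum.inr (Sum.inl (cp K x.1.1, x.1.2))
  | Sum.inr (Sum.inr x) => Sum.inr (Sum.inr (cp K x.1.1, cp K x.1.2))

theorem cv_inj : Function.Injective (cv K) := by
  rintro (p | ⟨⟨p, u⟩, hp⟩ | ⟨⟨p, p'⟩, hp⟩) (q | ⟨⟨q, v⟩, hq⟩ | ⟨⟨q, q'⟩, hq⟩) h
  · rw [cp_inj K (Sum.inl.inj h)]
  · cases h
  · cases h
  · cases h
  · have h1 := Prod.mk.inj (Sum.inl.inj (Sum.inr.inj h))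
    have h2 : p = q := cp_inj K h1.1
    have h3 : u = v := Fin.ext h1.2
    subst h2 h3
    rfl
  · cases h
  · cases h
  · cases h
  · have h1 := Prod.mk.inj (Sum.inr.inj (Sum.inr.inj h))
    have h2 : p = q := cp_inj K h1.1
    have h3 : p' = q' := cp_inj K h1.2
    subst h2 h3
    rfl

theorem mem_bigF (z : Pc × ℕ) : z ∈ bigF (adjMatrix K) ↔
    ∃ x : {x : Pt K × Fin n // gInc K x.1 x.2}, (cp K x.1.1, (x.1.2 : ℕ)) = z := by
  simp only [bigF, List.mem_flatMap, List.mem_map, List.mem_filter, List.mem_range,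
    length_adjMatrix]
  constructor
  · rintro ⟨c, hc, v, ⟨hv, hi⟩, rfl⟩
    obtain ⟨p, rfl⟩ := (mem_pts K c).1 hc
    exact ⟨⟨(p, ⟨v, hv⟩), (incB_cp K p ⟨v, hv⟩).1 hi⟩, rfl⟩
  · rintro ⟨⟨⟨p, v⟩, hx⟩, rfl⟩
    exact ⟨cp K p, (mem_pts K _).2 ⟨p, rfl⟩, v, ⟨v.2, (incB_cp K p v).2 hx⟩, rfl⟩

theorem mem_smallF (z : Pc × Pc) : z ∈ smallF (adjMatrix K) ↔
    ∃ x : {x : Pt K × Pt K // x.1 ≠ x.2 ∧ ¬ ∃ b, gInc K x.1 b ∧ gInc K x.2 b},
      (cp K x.1.1, cp K x.1.2) = z := by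
  have key : ∀ p q : Pt K, ((!(decide (cp K p = cp K q)) &&
      !((List.range n).any (fun v => incB (cp K p) v && incB (cp K q) v))) = true) ↔
      p ≠ q ∧ ¬ ∃ b, gInc K p b ∧ gInc K q b := by
    intro p q
    rw [Bool.and_eq_true, Bool.not_eq_true', decide_eq_false_iff_not, (cp_inj K).eq_iff,
      Bool.not_eq_true', ← Bool.not_eq_true, List.any_eq_true]
    refine and_congr Iff.rfl (not_congr ?_)
    constructor
    · rintro ⟨v, hv, h⟩
      rw [Bool.and_eq_true] at h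
      have hv' := List.mem_range.1 hv
      exact ⟨⟨v, hv'⟩, (incB_cp K p ⟨v, hv'⟩).1 h.1, (incB_cp K q ⟨v, hv'⟩).1 h.2⟩
    · rintro ⟨b, h1, h2⟩
      exact ⟨b, List.mem_range.2 b.2, by
        rw [Bool.and_eq_true]; exact ⟨(incB_cp K p b).2 h1, (incB_cp K q b).2 h2⟩⟩
  simp only [smallF, List.mem_flatMap, List.mem_map, List.mem_filter, length_adjMatrix]
  constructor
  · rintro ⟨c, hc, d, ⟨hd, h⟩, rfl⟩
    obtain ⟨p, rfl⟩ := (mem_pts K c).1 hc
    obtain ⟨q, rfl⟩ := (mem_pts K d).1 hd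
    exact ⟨⟨(p, q), (key p q).1 h⟩, rfl⟩
  · rintro ⟨⟨⟨p, q⟩, hx⟩, rfl⟩
    exact ⟨cp K p, (mem_pts K _).2 ⟨p, rfl⟩, cp K q, ⟨(mem_pts K _).2 ⟨q, rfl⟩,
      (key p q).2 hx⟩, rfl⟩

theorem mem_vs (z : Vc) : z ∈ vs (adjMatrix K) ↔ ∃ x, cv K x = z := by
  simp only [vs, List.mem_append, List.mem_map]
  constructor
  · rintro (⟨c, hc, rfl⟩ | ⟨c, hc, rfl⟩ | ⟨c, hc, rfl⟩)
    · obtain ⟨p, rfl⟩ := (mem_pts K c).1 hc
      exact ⟨Sum.inl p, rfl⟩
    · obtain ⟨x, rfl⟩ := (mem_bigF K c).1 hc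
      exact ⟨Sum.inr (Sum.inl x), rfl⟩
    · obtain ⟨x, rfl⟩ := (mem_smallF K c).1 hc
      exact ⟨Sum.inr (Sum.inr x), rfl⟩
  · rintro ⟨p | x | x, rfl⟩
    · exact Or.inl ⟨_, (mem_pts K _).2 ⟨p, rfl⟩, rfl⟩
    · exact Or.inr (Or.inl ⟨_, (mem_bigF K _).2 ⟨x, rfl⟩, rfl⟩)
    · exact Or.inr (Or.inr ⟨_, (mem_smallF K _).2 ⟨x, rfl⟩, rfl⟩)

theorem ad_cv (x y : Pt K ⊕ PFlag (gInc K)) : ad (cv K x) (cv K y) = true ↔ (geo K).Adj x y := by
  rcases x with p | ⟨⟨p, u⟩, hp⟩ | ⟨⟨p, p'⟩, hp⟩ <;>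
    rcases y with q | ⟨⟨q, v⟩, hq⟩ | ⟨⟨q, q'⟩, hq⟩
  · change false = true ↔ False
    simp
  · change decide (cp K q = cp K p) = true ↔ q = p
    rw [decide_eq_true_eq, (cp_inj K).eq_iff]
  · change decide (cp K q = cp K p) = true ↔ q = p
    rw [decide_eq_true_eq, (cp_inj K).eq_iff]
  · change decide (cp K p = cp K q) = true ↔ p = q
    rw [decide_eq_true_eq, (cp_inj K).eq_iff]
  · change (decide ((u : ℕ) = (v : ℕ)) && !(decide (cp K p = cp K q))) = true ↔
      (u = v ∧ (Sum.inl ⟨(p, u), hp⟩ : PFlag (gInc K)) ≠ Sum.inl ⟨(q, v), hq⟩)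
    rw [Bool.and_eq_true, Bool.not_eq_true', decide_eq_false_iff_not, decide_eq_true_eq,
      (cp_inj K).eq_iff, ← Fin.ext_iff]
    refine and_congr_right fun huv => ?_
    subst huv
    refine not_congr ?_
    constructor
    · rintro rfl; rfl
    · intro h; exact (Prod.mk.inj (congrArg Subtype.val (Sum.inl.inj h))).1
  · change false = true ↔ (False ∧ _)
    simp
  · change decide (cp K p = cp K q) = true ↔ p = q
    rw [decide_eq_true_eq, (cp_inj K).eq_iff]
  · change false = true ↔ (False ∧ _)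
    simp
  · change ((decide (cp K p = cp K q') && decide (cp K p' = cp K q)) &&
      !(decide (cp K p = cp K q))) = true ↔ (((p = q ∧ p' = q') ∨ (p = q' ∧ p' = q)) ∧
        (Sum.inr ⟨(p, p'), hp⟩ : PFlag (gInc K)) ≠ Sum.inr ⟨(q, q'), hq⟩)
    rw [Bool.and_eq_true, Bool.and_eq_true, Bool.not_eq_true', decide_eq_false_iff_not,
      decide_eq_true_eq, decide_eq_true_eq, (cp_inj K).eq_iff, (cp_inj K).eq_iff,
      (cp_inj K).eq_iff]
    constructor
    · rintro ⟨h1, h2⟩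
      refine ⟨Or.inr h1, fun h => h2 ?_⟩
      exact (Prod.mk.inj (congrArg Subtype.val (Sum.inr.inj h))).1
    · rintro ⟨h1 | h1, h2⟩
      · exfalso
        obtain ⟨rfl, rfl⟩ := h1
        exact h2 rfl
      · refine ⟨h1, fun h => ?_⟩
        have h3 := h1.2
        rw [← h] at h3
        exact hp.1 h3.symm

/-- The computed graph is isomorphic to the geodetic graph. -/
theorem exists_iso : Nonempty (outGraph (adjMatrix K) ≃g geo K) := by
  obtain ⟨e, he⟩ := exists_equiv (vs (adjMatrix K)) (nodup_vs _) (cv K) (cv_inj K) (mem_vs K)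
  refine ⟨{ toEquiv := e, map_rel_iff' := ?_ }⟩
  intro i j
  rw [← ad_cv, he, he]
  exact Iff.rfl

theorem geodetic_out : Geodetic (outGraph (adjMatrix K)) := by
  obtain ⟨φ⟩ := exists_iso K
  have h := (geoFun_geo K).comap φ
  have hne : Nonempty (Fin (vs (adjMatrix K)).length) :=
    ⟨φ.symm (Sum.inl (Sum.inr (Sum.inr 0)))⟩
  exact h.geodetic

theorem twoConnected_out : TwoConnected (outGraph (adjMatrix K)) := by
  obtain ⟨φ⟩ := exists_iso K
  exact (twoConnected_geo K).comap φ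

theorem iso_out {m : ℕ} (K' : SimpleGraph (Fin m)) : Nonempty (K ≃g K') ↔
    Nonempty (outGraph (adjMatrix K) ≃g outGraph (adjMatrix K')) := by
  obtain ⟨φ⟩ := exists_iso K
  obtain ⟨φ'⟩ := exists_iso K'
  rw [iso_iff]
  constructor
  · rintro ⟨ψ⟩
    exact ⟨(φ.trans ψ).trans φ'.symm⟩
  · rintro ⟨ψ⟩
    exact ⟨(φ.symm.trans ψ).trans φ'⟩

end Pool.Agent.NPC.GeoC
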