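import Pool.Agent.W948.Geo.Iso
import Pool.Agent.H622R2.CoNP

/-!
# Isomorphism of geodetic graphs is as hard as isomorphism of arbitrary graphs
-/

namespace Pool.Agent.NPC.GeoC

open Pool.Agent.NPC Pool.Agent.NPC.R671 Pool.Agent.W948.Geo

/-- `D` decides isomorphism of pairs of graphs of the class `C`: on (the code of) the two adjacency
matrices it answers `[true]` exactly if the graphs are isomorphic. -/
def DecidesIso (C : ∀ n : ℕ, SimpleGraph (Fin n) → Prop) (D : List Bool → List Bool) : Prop :=
  ∀ (n m : ℕ) (G : SimpleGraph (Fin n)) (H : SimpleGraph (Fin m)), C n G → C m H →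
    (D (bits (adjMatrix G, adjMatrix H)) = [true] ↔ Nonempty (G ≃g H))

/-- Isomorphism of graphs of the class `C` is decidable in polynomial time. -/
def IsoInP (C : ∀ n : ℕ, SimpleGraph (Fin n) → Prop) : Prop :=
  ∃ D : List Bool → List Bool, PolyTime D ∧ DecidesIso C D

/-- The reduction on pairs of matrices. -/
def pairMat (p : List (List Bool) × List (List Bool)) : List (List Bool) × List (List Bool) :=
  (outMat p.1, outMat p.2)

theorem poly_pairMat : Poly pairMat :=
  Poly.pair (poly_outMat (Poly.fst Poly.id)) (poly_outMat (Poly.snd Poly.id))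

/-- The reduction on bit strings. -/
def red (x : List Bool) : List Bool :=
  match (unbits (List (List Bool) × List (List Bool)) x).map pairMat with
  | none => []
  | some b => bits b

theorem polyTime_red : PolyTime red := by
  have h := polyTime_opt (Poly.optMap (o := unbits (List (List Bool) × List (List Bool)))
    (f := fun _ a => pairMat a) poly_unbits (poly_pairMat.comp (Poly.snd Poly.id)))
  refine Eq.mp (congrArg PolyTime (funext fun x => ?_)) h
  unfold red
  cases unbits (List (List Bool) × List (List Bool)) x <;> rfl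

theorem red_bits {n m : ℕ} (G : SimpleGraph (Fin n)) (H : SimpleGraph (Fin m)) :
    red (bits (adjMatrix G, adjMatrix H)) =
      bits (adjMatrix (outGraph (adjMatrix G)), adjMatrix (outGraph (adjMatrix H))) := by
  unfold red
  rw [unbits_bits, adjMatrix_outGraph, adjMatrix_outGraph]
  rfl

theorem dist_out {n : ℕ} (G : SimpleGraph (Fin n)) (u v : Fin (vs (adjMatrix G)).length) :
    (outGraph (adjMatrix G)).dist u v ≤ 5 := by
  obtain ⟨φ⟩ := exists_iso G
  rw [((geoFun_geo G).comap φ).dist_eq]
  exact (gSpace G).dst_le_five _ _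

theorem IsoInP.of_true {C : ∀ n : ℕ, SimpleGraph (Fin n) → Prop} (h : IsoInP fun _ _ => True) :
    IsoInP C := by
  obtain ⟨D, hD, h⟩ := h
  exact ⟨D, hD, fun n m G H _ _ => h n m G H trivial trivial⟩

theorem IsoInP.to_true {C : ∀ n : ℕ, SimpleGraph (Fin n) → Prop}
    (hC : ∀ (n : ℕ) (G : SimpleGraph (Fin n)), C _ (outGraph (adjMatrix G))) (h : IsoInP C) :
    IsoInP fun _ _ => True := by
  obtain ⟨D, hD, h⟩ := h
  refine ⟨fun x => D (red x), H642R2.TMSim.polyTime_comp hD polyTime_red, ?_⟩
  intro n m G H _ _
  change D (red (bits (adjMatrix G, adjMatrix H))) = [true] ↔ _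
  rw [red_bits, h _ _ _ _ (hC n G) (hC m H)]
  exact (iso_out G H).symm

end Pool.Agent.NPC.GeoC
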