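import Pool.Agent.W948.Geo.Flag

/-!
# 2-connectedness, and how a graph is recovered from the big lines
-/

namespace Pool.Agent.W948.Geo

open SimpleGraph

namespace FlagSpace

variable {P F : Type*} (S : FlagSpace P F)

theorem reach_flag {X : Set (P ⊕ F)} {f : F} (hf : Sum.inr f ∈ X) (hp : Sum.inl (S.pt f) ∈ X) :
    (S.graph.induce X).Reachable ⟨Sum.inr f, hf⟩ ⟨Sum.inl (S.pt f), hp⟩ :=
  Adj.reachable (by
    change S.graph.Adj (Sum.inr f) (Sum.inl (S.pt f))
    rw [adj_fp])

theorem reach_line {X : Set (P ⊕ F)} {f g : F} (hfg : S.r f g) (hne : f ≠ g)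
    (hf : Sum.inr f ∈ X) (hg : Sum.inr g ∈ X) :
    (S.graph.induce X).Reachable ⟨Sum.inr f, hf⟩ ⟨Sum.inr g, hg⟩ :=
  Adj.reachable (by
    change S.graph.Adj (Sum.inr f) (Sum.inr g)
    exact ⟨hfg, hne⟩)

theorem reach_points {X : Set (P ⊕ F)} {f g : F} (hfg : S.r f g) (hne : S.pt f ≠ S.pt g)
    (hf : Sum.inr f ∈ X) (hg : Sum.inr g ∈ X) (hp : Sum.inl (S.pt f) ∈ X)
    (hq : Sum.inl (S.pt g) ∈ X) :
    (S.graph.induce X).Reachable ⟨Sum.inl (S.pt f), hp⟩ ⟨Sum.inl (S.pt g), hq⟩ :=
  ((S.reach_flag hf hp).symm.trans (S.reach_line hfg (fun h => hne (by rw [h])) hf hg)).trans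
    (S.reach_flag hg hq)

/-- The graph of a linear space in which every line has at least two points and misses a point is
2-connected. -/
theorem twoConnected [Finite P] [Finite F] (h3 : 3 ≤ Nat.card P)
    (hA : ∀ f, ∃ g, S.r f g ∧ f ≠ g) (hB : ∀ f, ∃ s, ¬ S.On f s) : TwoConnected S.graph := by
  refine ⟨?_, fun v => ?_⟩
  · rw [Nat.card_sum]; omega
  · rw [connected_iff_exists_forall_reachable]
    rcases v with p₀ | f₀
    · -- remove a point
      have h1 : ∃ s : P, s ≠ p₀ := by
        by_contra hcon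
        push Not at hcon
        have : Nat.card P ≤ 1 := by
          have : Subsingleton P := ⟨fun a b => (hcon a).trans (hcon b).symm⟩
          exact Finite.card_le_one_iff_subsingleton.2 this
        omega
      obtain ⟨s, hs⟩ := h1
      have key : ∀ q : P, ∀ hq : q ≠ p₀, (S.graph.induce {w | w ≠ Sum.inl p₀}).Reachable
          ⟨Sum.inl s, fun h => hs (Sum.inl.inj h)⟩ ⟨Sum.inl q, fun h => hq (Sum.inl.inj h)⟩ := by
        intro q hq
        by_cases hsq : s = q
        · subst hsq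
          exact Reachable.refl _
        · obtain ⟨f, g, hfg, rfl, rfl⟩ := S.line s q hsq
          exact S.reach_points hfg hsq (by simp) (by simp) _ _
      refine ⟨⟨Sum.inl s, fun h => hs (Sum.inl.inj h)⟩, ?_⟩
      rintro ⟨w, hw⟩
      rcases w with q | f
      · exact key q (fun h => hw (by rw [h]))
      · by_cases hf : S.pt f = p₀
        · obtain ⟨g, hg, hne⟩ := hA f
          have hg' : S.pt g ≠ p₀ := fun h => hne (S.inj _ _ hg (hf.trans h.symm))
          exact ((key _ hg').trans (S.reach_flag (by simp) _).symm).trans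
            (S.reach_line (S.symm _ _ hg) hne.symm _ _)
        · exact (key _ hf).trans (S.reach_flag _ _).symm
    · -- remove a flag
      obtain ⟨s, hs⟩ := hB f₀
      have key : ∀ q : P, (S.graph.induce {w | w ≠ Sum.inr f₀}).Reachable
          ⟨Sum.inl s, by simp⟩ ⟨Sum.inl q, by simp⟩ := by
        intro q
        by_cases hsq : s = q
        · subst hsq
          exact Reachable.refl _
        · obtain ⟨f, g, hfg, rfl, rfl⟩ := S.line s q hsq
          have h1 : f ≠ f₀ := by
            rintro rfl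
            exact hs (S.on_self _)
          have h2 : g ≠ f₀ := by
            rintro rfl
            exact hs ⟨f, S.symm _ _ hfg, rfl⟩
          exact S.reach_points hfg hsq (by simpa using h1) (by simpa using h2) _ _
      refine ⟨⟨Sum.inl s, by simp⟩, ?_⟩
      rintro ⟨w, hw⟩
      rcases w with q | f
      · exact key q
      · exact (key _).trans (S.reach_flag _ _).symm

/-- The line of the flag has at least three points. -/
def Big (f : F) : Prop := ∃ g h, S.r f g ∧ S.r f h ∧ f ≠ g ∧ f ≠ h ∧ g ≠ h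

end FlagSpace

/-- The vertex is in a triangle. -/
def Tri {V : Type*} (G : SimpleGraph V) (x : V) : Prop := ∃ y z, G.Adj x y ∧ G.Adj x z ∧ G.Adj y z

theorem Tri.map {V W : Type*} {G : SimpleGraph V} {H : SimpleGraph W} (e : G ≃g H) {x : V}
    (h : Tri G x) : Tri H (e x) := by
  obtain ⟨y, z, h1, h2, h3⟩ := h
  exact ⟨e y, e z, e.map_rel_iff.2 h1, e.map_rel_iff.2 h2, e.map_rel_iff.2 h3⟩

namespace FlagSpace

theorem tri_iff {P F : Type*} (S : FlagSpace P F) (x : P ⊕ F) :
    Tri S.graph x ↔ ∃ f, x = Sum.inr f ∧ S.Big f := by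
  constructor
  · rintro ⟨y, z, h1, h2, h3⟩
    rcases x with p | f
    · exfalso
      rcases y with q | g
      · exact h1
      · rcases z with r | h
        · exact h2
        · rw [adj_pf] at h1 h2
          exact h3.2 (S.inj _ _ h3.1 (h1.trans h2.symm))
    · rcases y with q | g
      · exfalso
        rcases z with r | h
        · exact h3
        · rw [adj_fp] at h1
          rw [adj_pf] at h3
          exact h2.2 (S.inj _ _ h2.1 (h1.trans h3.symm))
      · rcases z with r | h
        · exfalso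
          rw [adj_fp] at h2 h3
          exact h1.2 (S.inj _ _ h1.1 (h2.trans h3.symm))
        · exact ⟨f, rfl, g, h, h1.1, h2.1, h1.2, h2.2, h3.2⟩
  · rintro ⟨f, rfl, g, h, h1, h2, h3, h4, h5⟩
    exact ⟨Sum.inr g, Sum.inr h, ⟨h1, h3⟩, ⟨h2, h4⟩, ⟨S.trans _ _ _ (S.symm _ _ h1) h2, h5⟩⟩

/-- The big lines of `S` are labelled by the vertices of `K`, and two of them meet if and only if
their labels are adjacent. -/
structure Labels {P F V : Type*} (S : FlagSpace P F) (K : SimpleGraph V) (ln : F → Option V) :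
    Prop where
  big : ∀ f, S.Big f ↔ ∃ u, ln f = some u
  eq : ∀ f g u v, ln f = some u → ln g = some v → (S.r f g ↔ u = v)
  surj : ∀ u, ∃ f, ln f = some u
  adj : ∀ u v, K.Adj u v ↔ u ≠ v ∧ ∃ f g, ln f = some u ∧ ln g = some v ∧ S.pt f = S.pt g

section Recover

variable {P F V P' F' V' : Type*} {S : FlagSpace P F} {S' : FlagSpace P' F'} {K : SimpleGraph V}
  {K' : SimpleGraph V'} {ln : F → Option V} {ln' : F' → Option V'}

theorem exists_image (h : Labels S K ln) (h' : Labels S' K' ln') (φ : S.graph ≃g S'.graph)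
    {f : F} {u : V} (hf : ln f = some u) : ∃ f' u', φ (Sum.inr f) = Sum.inr f' ∧
      ln' f' = some u' := by
  have h1 : Tri S.graph (Sum.inr f) := (S.tri_iff _).2 ⟨f, rfl, (h.big f).2 ⟨u, hf⟩⟩
  obtain ⟨f', hf', hb⟩ := (S'.tri_iff _).1 (h1.map φ)
  obtain ⟨u', hu'⟩ := (h'.big f').1 hb
  exact ⟨f', u', hf', hu'⟩

theorem image_eq (h : Labels S K ln) (h' : Labels S' K' ln') (φ : S.graph ≃g S'.graph)
    {f g : F} {u : V} {f' g' : F'} {v w : V'} (hf : ln f = some u) (hg : ln g = some u)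
    (ef : φ (Sum.inr f) = Sum.inr f') (eg : φ (Sum.inr g) = Sum.inr g') (hf' : ln' f' = some v)
    (hg' : ln' g' = some w) : v = w := by
  have h1 : S.r f g := (h.eq f g u u hf hg).2 rfl
  rw [← h'.eq f' g' v w hf' hg']
  by_cases hfg : f = g
  · subst hfg
    rw [ef] at eg
    cases eg
    exact S'.refl _
  · have h2 : S.graph.Adj (Sum.inr f) (Sum.inr g) := ⟨h1, hfg⟩
    have h3 := φ.map_rel_iff.2 h2
    rw [ef, eg] at h3
    exact h3.1

/-- The map induced on the labels. -/
theorem exists_map (h : Labels S K ln) (h' : Labels S' K' ln') (φ : S.graph ≃g S'.graph) :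
    ∃ ψ : V → V', ∀ f u f' u', ln f = some u → φ (Sum.inr f) = Sum.inr f' → ln' f' = some u' →
      u' = ψ u := by
  have h1 : ∀ u, ∃ u', ∃ f f', ln f = some u ∧ φ (Sum.inr f) = Sum.inr f' ∧ ln' f' = some u' := by
    intro u
    obtain ⟨f, hf⟩ := h.surj u
    obtain ⟨f', u', h2, h3⟩ := exists_image h h' φ hf
    exact ⟨u', f, f', hf, h2, h3⟩
  choose ψ f₀ f₀' hf₀ e₀ hf₀' using h1
  refine ⟨ψ, fun f u f' u' hf e hf' => ?_⟩
  exact image_eq h h' φ hf (hf₀ u) e (e₀ u) hf' (hf₀' u)

theorem map_adj (h : Labels S K ln) (h' : Labels S' K' ln') (φ : S.graph ≃g S'.graph)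
    {ψ : V → V'} (hψ : ∀ f u f' u', ln f = some u → φ (Sum.inr f) = Sum.inr f' →
      ln' f' = some u' → u' = ψ u) (hinj : Function.Injective ψ) {u v : V} (ha : K.Adj u v) :
    K'.Adj (ψ u) (ψ v) := by
  obtain ⟨hne, f, g, hf, hg, hpt⟩ := (h.adj u v).1 ha
  obtain ⟨f', u', ef, hf'⟩ := exists_image h h' φ hf
  obtain ⟨g', v', eg, hg'⟩ := exists_image h h' φ hg
  have hu' := hψ f u f' u' hf ef hf'
  have hv' := hψ g v g' v' hg eg hg'
  subst hu' hv'
  refine (h'.adj _ _).2 ⟨hinj.ne hne, f', g', hf', hg', ?_⟩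
  have h1 : S.graph.Adj (Sum.inr f) (Sum.inl (S.pt f)) := rfl
  have h2 : S.graph.Adj (Sum.inr g) (Sum.inl (S.pt f)) := hpt.symm
  have h3 := φ.map_rel_iff.2 h1
  have h4 := φ.map_rel_iff.2 h2
  rw [ef] at h3
  rw [eg] at h4
  cases hw : φ (Sum.inl (S.pt f)) with
  | inl p =>
    rw [hw] at h3 h4
    rw [adj_fp] at h3 h4
    rw [h3, h4]
  | inr k =>
    exfalso
    rw [hw] at h3 h4
    have h5 : S'.r f' g' := S'.trans _ _ _ h3.1 (S'.symm _ _ h4.1)
    exact hinj.ne hne ((h'.eq f' g' _ _ hf' hg').1 h5)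

/-- Isomorphic graphs of linear spaces come from isomorphic graphs. -/
theorem recover (h : Labels S K ln) (h' : Labels S' K' ln') (φ : S.graph ≃g S'.graph) :
    Nonempty (K ≃g K') := by
  obtain ⟨ψ, hψ⟩ := exists_map h h' φ
  obtain ⟨ψ', hψ'⟩ := exists_map h' h φ.symm
  have hl : ∀ u, ψ' (ψ u) = u := by
    intro u
    obtain ⟨f, hf⟩ := h.surj u
    obtain ⟨f', u', ef, hf'⟩ := exists_image h h' φ hf
    have h1 := hψ f u f' u' hf ef hf'
    subst h1
    exact (hψ' f' _ f u hf' (by rw [← ef]; simp) hf).symm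
  have hr : ∀ u, ψ (ψ' u) = u := by
    intro u
    obtain ⟨f, hf⟩ := h'.surj u
    obtain ⟨f', u', ef, hf'⟩ := exists_image h' h φ.symm hf
    have h1 := hψ' f u f' u' hf ef hf'
    subst h1
    exact (hψ f' _ f u hf' (by rw [← ef]; simp) hf).symm
  have hi : Function.Injective ψ := Function.LeftInverse.injective hl
  have hi' : Function.Injective ψ' := Function.LeftInverse.injective hr
  refine ⟨{ toFun := ψ, invFun := ψ', left_inv := hl, right_inv := hr, map_rel_iff' := ?_ }⟩
  intro u v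
  constructor
  · intro ha
    have := map_adj h' h φ.symm hψ' hi' ha
    simp only [Equiv.coe_fn_mk] at this
    rwa [hl, hl] at this
  · intro ha
    exact map_adj h h' φ hψ hi ha

end Recover

end FlagSpace

end Pool.Agent.W948.Geo
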