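import Pool.Agent.W948.Geo.Rec

/-!
# Linear spaces from partial linear spaces, and the space of a graph
-/

namespace Pool.Agent.W948.Geo

open SimpleGraph

section PLS

variable {P B : Type*} (inc : P → B → Prop)

/-- Two points are on at most one line. -/
def PLin : Prop := ∀ p q b c, p ≠ q → inc p b → inc q b → inc p c → inc q c → b = c

/-- The flags: points on the given lines, and ordered pairs of points that are not on a common
given line. -/
def PFlag : Type _ := {x : P × B // inc x.1 x.2} ⊕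
  {x : P × P // x.1 ≠ x.2 ∧ ¬ ∃ b, inc x.1 b ∧ inc x.2 b}

variable {inc}

/-- The point of a flag. -/
def PFlag.pt : PFlag inc → P
  | Sum.inl x => x.1.1
  | Sum.inr x => x.1.1

/-- Two flags have the same line. -/
def PFlag.rel : PFlag inc → PFlag inc → Prop
  | Sum.inl x, Sum.inl y => x.1.2 = y.1.2
  | Sum.inr x, Sum.inr y => (x.1.1 = y.1.1 ∧ x.1.2 = y.1.2) ∨ (x.1.1 = y.1.2 ∧ x.1.2 = y.1.1)
  | _, _ => False

/-- The linear space. -/
def space (h : PLin inc) : FlagSpace P (PFlag inc) where
  pt := PFlag.pt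
  r := PFlag.rel
  refl f := by
    cases f
    · exact rfl
    · exact Or.inl ⟨rfl, rfl⟩
  symm f g hfg := by
    cases f <;> cases g
    · exact Eq.symm hfg
    · exact hfg
    · exact hfg
    · rcases hfg with ⟨h1, h2⟩ | ⟨h1, h2⟩
      · exact Or.inl ⟨h1.symm, h2.symm⟩
      · exact Or.inr ⟨h2.symm, h1.symm⟩
  trans f g k hfg hgk := by
    cases f <;> cases g <;> cases k
    · exact Eq.trans hfg hgk
    · exact hgk
    · exact absurd hfg id
    · exact absurd hfg id
    · exact absurd hfg id
    · exact absurd hfg id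
    · exact hgk
    · rcases hfg with ⟨h1, h2⟩ | ⟨h1, h2⟩ <;> rcases hgk with ⟨h3, h4⟩ | ⟨h3, h4⟩
      · exact Or.inl ⟨h1.trans h3, h2.trans h4⟩
      · exact Or.inr ⟨h1.trans h3, h2.trans h4⟩
      · exact Or.inr ⟨h1.trans h4, h2.trans h3⟩
      · exact Or.inl ⟨h1.trans h4, h2.trans h3⟩
  inj f g hfg hpt := by
    rcases f with ⟨⟨p, b⟩, hf⟩ | ⟨⟨p, p'⟩, hf⟩ <;> rcases g with ⟨⟨q, c⟩, hg⟩ | ⟨⟨q, q'⟩, hg⟩
    · have h1 : b = c := hfg
      have h2 : p = q := hpt
      subst h1 h2
      rfl
    · exact absurd hfg id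
    · exact absurd hfg id
    · have h2 : p = q := hpt
      subst h2
      rcases hfg with ⟨_, h1⟩ | ⟨h1, _⟩
      · have h1 : p' = q' := h1
        subst h1
        rfl
      · exact absurd h1 hg.1
  line p q hpq := by
    by_cases hb : ∃ b, inc p b ∧ inc q b
    · obtain ⟨b, h1, h2⟩ := hb
      exact ⟨Sum.inl ⟨(p, b), h1⟩, Sum.inl ⟨(q, b), h2⟩, rfl, rfl, rfl⟩
    · refine ⟨Sum.inr ⟨(p, q), hpq, hb⟩, Sum.inr ⟨(q, p), hpq.symm, fun ⟨b, h1, h2⟩ =>
        hb ⟨b, h2, h1⟩⟩, Or.inr ⟨rfl, rfl⟩, rfl, rfl⟩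
  uniq f g f' g' hfg hfg' hp hq hne := by
    rcases f with ⟨⟨p, b⟩, hf⟩ | ⟨⟨p, p'⟩, hf⟩ <;> rcases g with ⟨⟨q, c⟩, hg⟩ | ⟨⟨q, q'⟩, hg⟩
    · have h1 : b = c := hfg
      have hpq : p ≠ q := hne
      subst h1
      rcases f' with ⟨⟨r, d⟩, hf'⟩ | ⟨⟨r, r'⟩, hf'⟩ <;>
        rcases g' with ⟨⟨s, e⟩, hg'⟩ | ⟨⟨s, s'⟩, hg'⟩
      · have h2 : d = e := hfg'
        have h3 : p = r := hp
        have h4 : q = s := hq
        subst h2 h3 h4
        have h5 : b = d := h p q b d hpq hf hg hf' hg'
        subst h5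
        rfl
      · exact absurd hfg' id
      · exact absurd hfg' id
      · exfalso
        have h3 : p = r := hp
        have h4 : q = s := hq
        subst h3 h4
        rcases hfg' with ⟨h5, _⟩ | ⟨_, h5⟩
        · exact hpq h5
        · have h5 : r' = q := h5
          subst h5
          exact hf'.2 ⟨b, hf, hg⟩
    · exact absurd hfg id
    · exact absurd hfg id
    · have hpq : p ≠ q := hne
      rcases hfg with ⟨h5, _⟩ | ⟨_, h5⟩
      · exact absurd h5 hpq
      · have h5 : p' = q := h5
        subst h5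
        rcases f' with ⟨⟨r, d⟩, hf'⟩ | ⟨⟨r, r'⟩, hf'⟩ <;>
          rcases g' with ⟨⟨s, e⟩, hg'⟩ | ⟨⟨s, s'⟩, hg'⟩
        · exfalso
          have h2 : d = e := hfg'
          have h3 : p = r := hp
          have h4 : p' = s := hq
          subst h2 h3 h4
          exact hf.2 ⟨d, hf', hg'⟩
        · exact absurd hfg' id
        · exact absurd hfg' id
        · have h3 : p = r := hp
          have h4 : p' = s := hq
          subst h3 h4
          rcases hfg' with ⟨h5, _⟩ | ⟨_, h5⟩
          · exact absurd h5 hpq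
          · have h5 : r' = p' := h5
            subst h5
            rfl

end PLS

section Functor

variable {P B P' B' : Type*} {inc : P → B → Prop} {inc' : P' → B' → Prop}

/-- The flags of isomorphic partial linear spaces. -/
def flagEquiv (a : P ≃ P') (b : B ≃ B') (hab : ∀ p c, inc p c ↔ inc' (a p) (b c)) :
    PFlag inc ≃ PFlag inc' :=
  Equiv.sumCongr
    ((Equiv.prodCongr a b).subtypeEquiv fun x => hab x.1 x.2)
    ((Equiv.prodCongr a a).subtypeEquiv fun x => by
      refine and_congr (not_congr a.injective.eq_iff.symm) (not_congr ?_)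
      constructor
      · rintro ⟨c, h1, h2⟩
        exact ⟨b c, (hab _ _).1 h1, (hab _ _).1 h2⟩
      · rintro ⟨c, h1, h2⟩
        refine ⟨b.symm c, (hab _ _).2 ?_, (hab _ _).2 ?_⟩
        · rw [b.apply_symm_apply]; exact h1
        · rw [b.apply_symm_apply]; exact h2)

theorem pt_flagEquiv (a : P ≃ P') (b : B ≃ B') (hab : ∀ p c, inc p c ↔ inc' (a p) (b c))
    (f : PFlag inc) : (flagEquiv a b hab f).pt = a f.pt := by
  rcases f with f | f <;> rfl

theorem rel_flagEquiv (a : P ≃ P') (b : B ≃ B') (hab : ∀ p c, inc p c ↔ inc' (a p) (b c))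
    (f g : PFlag inc) : (flagEquiv a b hab f).rel (flagEquiv a b hab g) ↔ f.rel g := by
  rcases f with f | f <;> rcases g with g | g
  · exact b.injective.eq_iff
  · exact Iff.rfl
  · exact Iff.rfl
  · exact or_congr (and_congr a.injective.eq_iff a.injective.eq_iff)
      (and_congr a.injective.eq_iff a.injective.eq_iff)

/-- Isomorphic partial linear spaces have isomorphic graphs. -/
def spaceIso (h : PLin inc) (h' : PLin inc') (a : P ≃ P') (b : B ≃ B')
    (hab : ∀ p c, inc p c ↔ inc' (a p) (b c)) : (space h).graph ≃g (space h').graph where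
  toEquiv := Equiv.sumCongr a (flagEquiv a b hab)
  map_rel_iff' := by
    rintro (p | f) (q | g)
    · exact Iff.rfl
    · change (flagEquiv a b hab g).pt = a p ↔ g.pt = p
      rw [pt_flagEquiv, a.injective.eq_iff]
    · change (flagEquiv a b hab f).pt = a q ↔ f.pt = q
      rw [pt_flagEquiv, a.injective.eq_iff]
    · change ((flagEquiv a b hab f).rel (flagEquiv a b hab g) ∧
        flagEquiv a b hab f ≠ flagEquiv a b hab g) ↔ (f.rel g ∧ f ≠ g)
      rw [rel_flagEquiv]
      exact and_congr Iff.rfl (not_congr (Equiv.apply_eq_iff_eq _))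

end Functor

section Graph

variable {V : Type*} (K : SimpleGraph V)

/-- The points: three private points for every vertex, the edges, and three further points. -/
abbrev Pt : Type _ := (V × Fin 3) ⊕ (K.edgeSet ⊕ Fin 3)

/-- A point is on the line of a vertex `v`: the private points of `v` and the edges at `v`. -/
def gInc : Pt K → V → Prop
  | Sum.inl x, v => x.1 = v
  | Sum.inr (Sum.inl e), v => v ∈ e.1
  | Sum.inr (Sum.inr _), _ => False

theorem gInc_plin : PLin (gInc K) := by
  intro p q b c hpq h1 h2 h3 h4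
  rcases p with ⟨u, k⟩ | e | k
  · have e1 : u = b := h1
    have e2 : u = c := h3
    exact e1.symm.trans e2
  · rcases q with ⟨u, k⟩ | e' | k
    · have e1 : u = b := h2
      have e2 : u = c := h4
      exact e1.symm.trans e2
    · by_contra hbc
      apply hpq
      have e1 : e.1 = s(b, c) := (Sym2.mem_and_mem_iff hbc).1 ⟨h1, h3⟩
      have e2 : e'.1 = s(b, c) := (Sym2.mem_and_mem_iff hbc).1 ⟨h2, h4⟩
      have : e = e' := Subtype.ext (e1.trans e2.symm)
      rw [this]
    · exact absurd h2 id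
  · exact absurd h1 id

/-- The linear space of a graph. -/
def gSpace : FlagSpace (Pt K) (PFlag (gInc K)) := space (gInc_plin K)

/-- The geodetic graph of a graph. -/
def geo : SimpleGraph (Pt K ⊕ PFlag (gInc K)) := (gSpace K).graph

/-- The labels of the big lines. -/
def label : PFlag (gInc K) → Option V
  | Sum.inl x => some x.1.2
  | Sum.inr _ => none

variable {K}

/-- The private flags. -/
def priv (v : V) (k : Fin 3) : PFlag (gInc K) := Sum.inl ⟨(Sum.inl (v, k), v), rfl⟩

theorem priv_inj {v : V} {k l : Fin 3} (h : (priv v k : PFlag (gInc K)) = priv v l) : k = l := by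
  unfold priv at h
  cases h
  rfl

theorem big_iff (f : PFlag (gInc K)) : (gSpace K).Big f ↔ ∃ u, label K f = some u := by
  constructor
  · rintro ⟨g, h, h1, h2, h3, h4, h5⟩
    rcases f with f | ⟨⟨p, p'⟩, hf⟩
    · exact ⟨f.1.2, rfl⟩
    · exfalso
      rcases g with g | ⟨⟨q, q'⟩, hg⟩
      · exact h1
      · rcases h with h | ⟨⟨r, r'⟩, hh⟩
        · exact h2
        · rcases h1 with ⟨e1, e2⟩ | ⟨e1, e2⟩
          · have e1 : p = q := e1
            have e2 : p' = q' := e2
            subst e1 e2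
            exact h3 rfl
          · rcases h2 with ⟨e3, e4⟩ | ⟨e3, e4⟩
            · have e3 : p = r := e3
              have e4 : p' = r' := e4
              subst e3 e4
              exact h4 rfl
            · have e1 : p = q' := e1
              have e2 : p' = q := e2
              have e3 : p = r' := e3
              have e4 : p' = r := e4
              subst e1 e2 e3 e4
              exact h5 rfl
  · rintro ⟨u, hu⟩
    rcases f with ⟨⟨p, v⟩, hf⟩ | f
    · have key : ∀ k, (gSpace K).r (Sum.inl ⟨(p, v), hf⟩) (priv v k) := fun k => rfl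
      have h3 : ∃ k l : Fin 3, k ≠ l ∧ (Sum.inl ⟨(p, v), hf⟩ : PFlag (gInc K)) ≠ priv v k ∧
          (Sum.inl ⟨(p, v), hf⟩ : PFlag (gInc K)) ≠ priv v l := by
        by_cases h0 : (Sum.inl ⟨(p, v), hf⟩ : PFlag (gInc K)) = priv v 0
        · refine ⟨1, 2, by decide, ?_, ?_⟩
          · intro h; exact absurd (priv_inj (h0.symm.trans h)) (by decide)
          · intro h; exact absurd (priv_inj (h0.symm.trans h)) (by decide)
        · by_cases h1 : (Sum.inl ⟨(p, v), hf⟩ : PFlag (gInc K)) = priv v 1
          · refine ⟨0, 2, by decide, h0, ?_⟩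
            intro h; exact absurd (priv_inj (h1.symm.trans h)) (by decide)
          · exact ⟨0, 1, by decide, h0, h1⟩
      obtain ⟨k, l, h1, h2, h4⟩ := h3
      exact ⟨priv v k, priv v l, key k, key l, h2, h4, fun h => h1 (priv_inj h)⟩
    · cases hu

theorem labels : FlagSpace.Labels (gSpace K) K (label K) where
  big := big_iff
  eq f g u v hu hv := by
    rcases f with f | f
    · rcases g with g | g
      · cases hu
        cases hv
        exact Iff.rfl
      · cases hv
    · cases hu
  surj u := ⟨priv u 0, rfl⟩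
  adj u v := by
    constructor
    · intro h
      refine ⟨h.ne, ?_⟩
      have he : s(u, v) ∈ K.edgeSet := h
      exact ⟨Sum.inl ⟨(Sum.inr (Sum.inl ⟨s(u, v), he⟩), u), Sym2.mem_mk_left u v⟩,
        Sum.inl ⟨(Sum.inr (Sum.inl ⟨s(u, v), he⟩), v), Sym2.mem_mk_right u v⟩, rfl, rfl, rfl⟩
    · rintro ⟨hne, f, g, hf, hg, hpt⟩
      rcases f with ⟨⟨p, a⟩, hp⟩ | f
      · rcases g with ⟨⟨q, b⟩, hq⟩ | g
        · cases hf
          cases hg
          have hpt : p = q := hpt
          subst hpt
          rcases p with ⟨w, k⟩ | e | k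
          · have e1 : w = a := hp
            have e2 : w = b := hq
            exact absurd (e1.symm.trans e2) hne
          · have e1 : e.1 = s(a, b) := (Sym2.mem_and_mem_iff hne).1 ⟨hp, hq⟩
            have := e.2
            rw [e1] at this
            exact this
          · exact absurd hp id
        · cases hg
      · cases hf

/-- The construction is functorial. -/
theorem geo_iso {V' : Type*} {K' : SimpleGraph V'} (φ : K ≃g K') : Nonempty (geo K ≃g geo K') := by
  refine ⟨spaceIso (gInc_plin K) (gInc_plin K')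
    (Equiv.sumCongr (Equiv.prodCongr φ.toEquiv (Equiv.refl _))
      (Equiv.sumCongr φ.mapEdgeSet (Equiv.refl _))) φ.toEquiv ?_⟩
  rintro (⟨u, k⟩ | e | k) v
  · exact φ.injective.eq_iff.symm
  · change v ∈ e.1 ↔ φ v ∈ Sym2.map φ e.1
    rw [Sym2.mem_map]
    constructor
    · exact fun h => ⟨v, h, rfl⟩
    · rintro ⟨w, hw, h⟩
      rwa [← φ.injective h]
  · exact Iff.rfl

theorem iso_iff {V' : Type*} {K' : SimpleGraph V'} :
    Nonempty (K ≃g K') ↔ Nonempty (geo K ≃g geo K') := by
  constructor
  · rintro ⟨φ⟩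
    exact geo_iso φ
  · rintro ⟨φ⟩
    exact FlagSpace.recover labels labels φ

theorem geoFun_geo (K : SimpleGraph V) : GeoFun (geo K) (gSpace K).dst := (gSpace K).geoFun

theorem twoConnected_geo [Finite V] (K : SimpleGraph V) : TwoConnected (geo K) := by
  have hF : Finite (PFlag (gInc K)) := by
    unfold PFlag
    infer_instance
  refine FlagSpace.twoConnected _ ?_ ?_ ?_
  · rw [Nat.card_sum, Nat.card_sum]
    have : Nat.card (Fin 3) = 3 := by simp
    omega
  · rintro (⟨⟨p, v⟩, hf⟩ | ⟨⟨p, q⟩, hf⟩)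
    · by_cases h0 : (Sum.inl ⟨(p, v), hf⟩ : PFlag (gInc K)) = priv v 0
      · refine ⟨priv v 1, rfl, ?_⟩
        intro h; exact absurd (priv_inj (h0.symm.trans h)) (by decide)
      · exact ⟨priv v 0, rfl, h0⟩
    · refine ⟨Sum.inr ⟨(q, p), hf.1.symm, fun ⟨b, h1, h2⟩ => hf.2 ⟨b, h2, h1⟩⟩,
        Or.inr ⟨rfl, rfl⟩, ?_⟩
      intro h
      have h : (⟨(p, q), hf⟩ : {x : Pt K × Pt K // x.1 ≠ x.2 ∧ ¬ ∃ b, gInc K x.1 b ∧
        gInc K x.2 b}) = ⟨(q, p), _⟩ := Sum.inr.inj h
      exact hf.1 (congrArg (fun x => x.1.1) h)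
  · rintro (⟨⟨p, v⟩, hf⟩ | ⟨⟨p, q⟩, hf⟩)
    · refine ⟨Sum.inr (Sum.inr 0), ?_⟩
      rintro ⟨g, h1, h2⟩
      rcases g with ⟨⟨q, w⟩, hg⟩ | ⟨⟨q, w⟩, hg⟩
      · have h2 : q = Sum.inr (Sum.inr 0) := h2
        subst h2
        exact hg
      · exact h1
    · -- one of the three further points is different from `p` and `q`
      have key : ∀ s : Pt K, s ≠ p → s ≠ q → ∃ s, ¬ (gSpace K).On (Sum.inr ⟨(p, q), hf⟩) s := by
        intro s h1 h2
        refine ⟨s, ?_⟩
        rintro ⟨g, h3, h4⟩
        rcases g with ⟨⟨r, w⟩, hg⟩ | ⟨⟨r, w⟩, hg⟩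
        · exact h3
        · have h4 : r = s := h4
          subst h4
          rcases h3 with ⟨e1, _⟩ | ⟨_, e2⟩
          · exact h1 e1.symm
          · exact h2 e2.symm
      by_cases h0 : Sum.inr (Sum.inr 0) ≠ p ∧ Sum.inr (Sum.inr 0) ≠ q
      · exact key _ h0.1 h0.2
      · by_cases h1 : Sum.inr (Sum.inr 1) ≠ p ∧ Sum.inr (Sum.inr 1) ≠ q
        · exact key _ h1.1 h1.2
        · refine key (Sum.inr (Sum.inr 2)) ?_ ?_
          · rintro rfl
            have e0 : (Sum.inr (Sum.inr 0) : Pt K) ≠ Sum.inr (Sum.inr 2) := by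
              intro h; exact absurd (Sum.inr.inj (Sum.inr.inj h)) (by decide)
            have e1 : (Sum.inr (Sum.inr 1) : Pt K) ≠ Sum.inr (Sum.inr 2) := by
              intro h; exact absurd (Sum.inr.inj (Sum.inr.inj h)) (by decide)
            have e2 : (Sum.inr (Sum.inr 0) : Pt K) ≠ Sum.inr (Sum.inr 1) := by
              intro h; exact absurd (Sum.inr.inj (Sum.inr.inj h)) (by decide)
            have a0 : (Sum.inr (Sum.inr 0) : Pt K) = q := by
              by_contra h; exact h0 ⟨e0, h⟩
            have a1 : (Sum.inr (Sum.inr 1) : Pt K) = q := by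
              by_contra h; exact h1 ⟨e1, h⟩
            exact e2 (a0.trans a1.symm)
          · rintro rfl
            have e0 : (Sum.inr (Sum.inr 0) : Pt K) ≠ Sum.inr (Sum.inr 2) := by
              intro h; exact absurd (Sum.inr.inj (Sum.inr.inj h)) (by decide)
            have e1 : (Sum.inr (Sum.inr 1) : Pt K) ≠ Sum.inr (Sum.inr 2) := by
              intro h; exact absurd (Sum.inr.inj (Sum.inr.inj h)) (by decide)
            have e2 : (Sum.inr (Sum.inr 0) : Pt K) ≠ Sum.inr (Sum.inr 1) := by
              intro h; exact absurd (Sum.inr.inj (Sum.inr.inj h)) (by decide)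
            have a0 : (Sum.inr (Sum.inr 0) : Pt K) = p := by
              by_contra h; exact h0 ⟨h, e0⟩
            have a1 : (Sum.inr (Sum.inr 1) : Pt K) = p := by
              by_contra h; exact h1 ⟨h, e1⟩
            exact e2 (a0.trans a1.symm)

end Graph

end Pool.Agent.W948.Geo
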